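import Mathlib

set_option autoImplicit false

open Filter Topology

namespace Pool.Agent.Helper95.FP

variable {H : Type*} [NormedAddCommGroup H] [InnerProductSpace ℝ H] [CompleteSpace H]

/-- A nonempty bounded subset of a Hilbert space has a centre, fixed by all the distance preserving
maps which map the set onto itself. -/
theorem exists_center (S : Set H) (hS : S.Nonempty) (C : ℝ) (hC : ∀ s ∈ S, ‖s‖ ≤ C) :
    ∃ z : H, ∀ g : H → H, Isometry g → g '' S = S → g z = z := by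
  classical
  -- the admissible radii
  let A : Set ℝ := {a | 0 ≤ a ∧ ∃ z : H, ∀ s ∈ S, ‖z - s‖ ≤ a}
  have hA0 : A.Nonempty := by
    obtain ⟨s, hs⟩ := hS
    refine ⟨C, (norm_nonneg s).trans (hC s hs), 0, fun s hs => ?_⟩
    simpa using hC s hs
  have hAb : BddBelow A := ⟨0, fun a ha => ha.1⟩
  set ρ := sInf A with hρ
  have hρ0 : 0 ≤ ρ := le_csInf hA0 fun a ha => ha.1
  have hmid : ∀ (z w : H) (a : ℝ), 0 ≤ a → (∀ s ∈ S, ‖z - s‖ ≤ a) → (∀ s ∈ S, ‖w - s‖ ≤ a) →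
      ‖z - w‖ ^ 2 ≤ 4 * (a ^ 2 - ρ ^ 2) := by
    intro z w a ha hz hw
    have hzw0 : ‖z - w‖ ≤ 2 * a := by
      obtain ⟨s, hs⟩ := hS
      calc ‖z - w‖ = ‖(z - s) - (w - s)‖ := by congr 1; abel
        _ ≤ ‖z - s‖ + ‖w - s‖ := norm_sub_le _ _
        _ ≤ 2 * a := by linarith [hz s hs, hw s hs]
    have hb : 0 ≤ a ^ 2 - ‖z - w‖ ^ 2 / 4 := by
      have := norm_nonneg (z - w)
      nlinarith
    have hmem : Real.sqrt (a ^ 2 - ‖z - w‖ ^ 2 / 4) ∈ A := by
      refine ⟨Real.sqrt_nonneg _, (1 / 2 : ℝ) • (z + w), fun s hs => ?_⟩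
      refine Real.le_sqrt_of_sq_le ?_
      have h1 := parallelogram_law_with_norm ℝ (z - s) (w - s)
      have e1 : z - s + (w - s) = (2 : ℝ) • ((1 / 2 : ℝ) • (z + w) - s) := by
        rw [smul_sub, smul_smul]
        norm_num
        rw [two_smul]
        abel
      have e2 : z - s - (w - s) = z - w := by abel
      rw [e1, e2, norm_smul] at h1
      have h3 := hz s hs
      have h4 := hw s hs
      have h5 := norm_nonneg (z - s)
      have h6 := norm_nonneg (w - s)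
      rw [Real.norm_ofNat] at h1
      nlinarith
    have h := csInf_le hAb hmem
    have h2 : ρ ^ 2 ≤ a ^ 2 - ‖z - w‖ ^ 2 / 4 := by
      calc ρ ^ 2 ≤ Real.sqrt (a ^ 2 - ‖z - w‖ ^ 2 / 4) ^ 2 := by gcongr
        _ = _ := Real.sq_sqrt hb
    linarith
  have hex : ∀ n : ℕ, ∃ z : H, ∀ s ∈ S, ‖z - s‖ ≤ ρ + 1 / ((n : ℝ) + 1) := by
    intro n
    have hlt : ρ < ρ + 1 / ((n : ℝ) + 1) := by
      have : 0 < 1 / ((n : ℝ) + 1) := by positivity
      linarith
    obtain ⟨a, ⟨-, z, hz⟩, ha⟩ := exists_lt_of_csInf_lt hA0 hlt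
    exact ⟨z, fun s hs => (hz s hs).trans ha.le⟩
  choose z hz using hex
  have hdist : ∀ n m N : ℕ, N ≤ n → N ≤ m → dist (z n) (z m) ≤
      Real.sqrt (4 * ((ρ + 1 / ((N : ℝ) + 1)) ^ 2 - ρ ^ 2)) := by
    intro n m N hn hm
    rw [dist_eq_norm]
    refine Real.le_sqrt_of_sq_le ?_
    have hmono : ∀ k : ℕ, N ≤ k → 1 / ((k : ℝ) + 1) ≤ 1 / ((N : ℝ) + 1) := by
      intro k hk
      have : (N : ℝ) ≤ k := by exact_mod_cast hk
      exact one_div_le_one_div_of_le (by positivity) (by linarith)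
    refine hmid _ _ _ (by positivity) (fun s hs => (hz n s hs).trans ?_)
      (fun s hs => (hz m s hs).trans ?_)
    · linarith [hmono n hn]
    · linarith [hmono m hm]
  have hlim : Tendsto (fun N : ℕ => Real.sqrt (4 * ((ρ + 1 / ((N : ℝ) + 1)) ^ 2 - ρ ^ 2))) atTop
      (𝓝 0) := by
    have h1 : Tendsto (fun N : ℕ => 1 / ((N : ℝ) + 1)) atTop (𝓝 0) :=
      tendsto_one_div_add_atTop_nhds_zero_nat
    have h2 : Tendsto (fun N : ℕ => 4 * ((ρ + 1 / ((N : ℝ) + 1)) ^ 2 - ρ ^ 2)) atTop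
        (𝓝 (4 * ((ρ + 0) ^ 2 - ρ ^ 2))) :=
      (((tendsto_const_nhds.add h1).pow 2).sub tendsto_const_nhds).const_mul 4
    have h3 := (Real.continuous_sqrt.tendsto _).comp h2
    have e0 : Real.sqrt (4 * ((ρ + 0) ^ 2 - ρ ^ 2)) = 0 := by
      rw [add_zero, sub_self, mul_zero, Real.sqrt_zero]
    rw [e0] at h3
    exact h3
  have hcau : CauchySeq z := cauchySeq_of_le_tendsto_0 _ hdist hlim
  obtain ⟨w, hw⟩ := cauchySeq_tendsto_of_complete hcau
  have hwb : ∀ s ∈ S, ‖w - s‖ ≤ ρ := by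
    intro s hs
    have h1 : Tendsto (fun n => ‖z n - s‖) atTop (𝓝 ‖w - s‖) := (hw.sub_const s).norm
    have h2 : Tendsto (fun n : ℕ => ρ + 1 / ((n : ℝ) + 1)) atTop (𝓝 ρ) := by
      have := (tendsto_const_nhds (x := ρ)).add
        (tendsto_one_div_add_atTop_nhds_zero_nat (𝕜 := ℝ))
      simpa using this
    exact le_of_tendsto_of_tendsto' h1 h2 fun n => hz n s hs
  refine ⟨w, fun g hg hgS => ?_⟩
  have hgw : ∀ s ∈ S, ‖g w - s‖ ≤ ρ := by
    intro s hs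
    rw [← hgS] at hs
    obtain ⟨s', hs', rfl⟩ := hs
    rw [← dist_eq_norm, hg.dist_eq, dist_eq_norm]
    exact hwb s' hs'
  have h := hmid (g w) w ρ hρ0 hgw hwb
  have h2 : ‖g w - w‖ = 0 := by
    have := norm_nonneg (g w - w)
    nlinarith
  rwa [norm_eq_zero, sub_eq_zero] at h2

end Pool.Agent.Helper95.FP
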