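import Pool.Agent.Helper95.FP.Schoen

set_option autoImplicit false

open MeasureTheory Filter Topology
open scoped ENNReal NNReal

namespace Pool.Agent.Helper95.FP

open Pool.Agent.H635F

lemma mp_restrict (m : ℕ) (μ : Measure UnitAddCircle) [IsProbabilityMeasure μ]
    (h : MeasurePreserving (fun x : UnitAddCircle => m • x) μ μ) :
    MeasurePreserving (fun x : UnitAddCircle => m • x) (μ.restrict {0}ᶜ) (μ.restrict {0}ᶜ) := by
  have h1 := h.restrict_preimage (s := ({0} : Set UnitAddCircle)ᶜ)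
    (measurableSet_singleton _).compl
  have h2 : μ.restrict ((fun x : UnitAddCircle => m • x) ⁻¹' {0}ᶜ) = μ.restrict {0}ᶜ := by
    apply Measure.restrict_congr_set
    rw [Set.preimage_compl]
    apply ae_eq_set_compl_compl.2
    have hsub : ({0} : Set UnitAddCircle) ⊆ (fun x : UnitAddCircle => m • x) ⁻¹' {0} := by
      intro x hx
      rw [Set.mem_singleton_iff] at hx
      simp [hx]
    have hm : MeasurableSet ((fun x : UnitAddCircle => m • x) ⁻¹' ({0} : Set UnitAddCircle)) :=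
      (continuous_nsmul m).measurable (measurableSet_singleton _)
    exact (ae_eq_of_subset_of_measure_ge hsub
      (h.measure_preimage (measurableSet_singleton _).nullMeasurableSet).le
      (measurableSet_singleton _).nullMeasurableSet (measure_ne_top _ _)).symm
  rw [h2] at h1
  exact h1

lemma cond_prob (μ : Measure UnitAddCircle) [IsProbabilityMeasure μ] (h0 : μ {0}ᶜ ≠ 0) :
    IsProbabilityMeasure ((μ {0}ᶜ)⁻¹ • μ.restrict {0}ᶜ) := by
  refine ⟨?_⟩
  rw [Measure.smul_apply, Measure.restrict_apply_univ, smul_eq_mul]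
  exact ENNReal.inv_mul_cancel h0 (measure_ne_top _ _)

/-- The conditional measure off the point `0`. -/
noncomputable def cnd (μ : PM) (h0 : (μ : Measure UnitAddCircle) {0}ᶜ ≠ 0) : PM :=
  ⟨_, cond_prob (μ : Measure UnitAddCircle) h0⟩

lemma cnd_zero (μ : PM) (h0 : (μ : Measure UnitAddCircle) {0}ᶜ ≠ 0) :
    (cnd μ h0 : Measure UnitAddCircle) {0} = 0 := by
  change (((μ : Measure UnitAddCircle) {0}ᶜ)⁻¹ • (μ : Measure UnitAddCircle).restrict {0}ᶜ) {0} = 0
  rw [Measure.smul_apply, Measure.restrict_apply (measurableSet_singleton _)]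
  simp

lemma cnd_inv (μ : PM) (h0 : (μ : Measure UnitAddCircle) {0}ᶜ ≠ 0) (h : Inv μ) :
    Inv (cnd μ h0) := by
  rw [inv_iff] at h ⊢
  exact ⟨(mp_restrict 2 _ h.1).smul_measure _, (mp_restrict 3 _ h.2).smul_measure _⟩

lemma cnd_re (μ : PM) (h0 : (μ : Measure UnitAddCircle) {0}ᶜ ≠ 0) :
    1 - (F 1 (cnd μ h0)).re =
      ((μ : Measure UnitAddCircle).real {0}ᶜ)⁻¹ * (1 - (F 1 μ).re) := by
  have hint : ∀ (γ : Measure UnitAddCircle) [IsFiniteMeasure γ],
      Integrable (fun x : UnitAddCircle => (fourier 1 x : ℂ)) γ := fun γ _ => integrable_fourier 1 γ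
  have hm : MeasurableSet ({0} : Set UnitAddCircle) := measurableSet_singleton _
  have h1 : F 1 (cnd μ h0) = (((μ : Measure UnitAddCircle) {0}ᶜ)⁻¹).toReal •
      ∫ x in {0}ᶜ, (fourier 1 x : ℂ) ∂(μ : Measure UnitAddCircle) := by
    change ∫ x, (fourier 1 x : ℂ) ∂(((μ : Measure UnitAddCircle) {0}ᶜ)⁻¹ •
      (μ : Measure UnitAddCircle).restrict {0}ᶜ) = _
    rw [integral_smul_measure]
  have h2 : F 1 μ = ∫ x in {0}, (fourier 1 x : ℂ) ∂(μ : Measure UnitAddCircle) +
      ∫ x in {0}ᶜ, (fourier 1 x : ℂ) ∂(μ : Measure UnitAddCircle) :=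
    (integral_add_compl hm (hint _)).symm
  have h3 : ∫ x in {0}, (fourier 1 x : ℂ) ∂(μ : Measure UnitAddCircle) =
      (((μ : Measure UnitAddCircle).real {0} : ℝ) : ℂ) := by
    rw [integral_singleton]
    simp [measureReal_def]
  have h4 : (μ : Measure UnitAddCircle).real {0}ᶜ = 1 - (μ : Measure UnitAddCircle).real {0} := by
    rw [probReal_compl_eq_one_sub hm]
  have h5 : (((μ : Measure UnitAddCircle) {0}ᶜ)⁻¹).toReal =
      ((μ : Measure UnitAddCircle).real {0}ᶜ)⁻¹ := by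
    rw [ENNReal.toReal_inv]
    rfl
  have hq : (μ : Measure UnitAddCircle).real {0}ᶜ ≠ 0 := by
    rw [measureReal_def]
    exact (ENNReal.toReal_pos h0 (measure_ne_top _ _)).ne'
  have h6 : (∫ x in {0}ᶜ, (fourier 1 x : ℂ) ∂(μ : Measure UnitAddCircle)).re =
      (F 1 μ).re - (μ : Measure UnitAddCircle).real {0} := by
    rw [h2, h3]
    simp
  rw [h1, h5, Complex.smul_re, smul_eq_mul, h6]
  have h7 : (μ : Measure UnitAddCircle).real {0} = 1 - (μ : Measure UnitAddCircle).real {0}ᶜ := by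
    rw [h4]; ring
  rw [h7]
  field_simp
  ring

lemma two_mul_ge (μ : PM) (n : ℤ) :
    1 - (F n μ).re ≤ 2 * (μ : Measure UnitAddCircle).real {0}ᶜ := by
  have hm : MeasurableSet ({0} : Set UnitAddCircle) := measurableSet_singleton _
  have hint : Integrable (fun x : UnitAddCircle => (fourier n x : ℂ)) (μ : Measure UnitAddCircle) :=
    integrable_fourier n _
  have h2 : F n μ = ∫ x in {0}, (fourier n x : ℂ) ∂(μ : Measure UnitAddCircle) +
      ∫ x in {0}ᶜ, (fourier n x : ℂ) ∂(μ : Measure UnitAddCircle) :=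
    (integral_add_compl hm hint).symm
  have h3 : ∫ x in {0}, (fourier n x : ℂ) ∂(μ : Measure UnitAddCircle) =
      (((μ : Measure UnitAddCircle).real {0} : ℝ) : ℂ) := by
    rw [integral_singleton]
    simp [measureReal_def]
  have h4 : (μ : Measure UnitAddCircle).real {0}ᶜ = 1 - (μ : Measure UnitAddCircle).real {0} := by
    rw [probReal_compl_eq_one_sub hm]
  have h5 : ‖∫ x in {0}ᶜ, (fourier n x : ℂ) ∂(μ : Measure UnitAddCircle)‖ ≤
      1 * (μ : Measure UnitAddCircle).real {0}ᶜ :=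
    norm_setIntegral_le_of_norm_le_const (measure_lt_top _ _) fun x _ => (norm_fourier n x).le
  have h6 := (abs_le.1 (Complex.abs_re_le_norm
    (∫ x in {0}ᶜ, (fourier n x : ℂ) ∂(μ : Measure UnitAddCircle)))).1
  rw [h2, h3, Complex.add_re, Complex.ofReal_re]
  linarith

theorem noGap_of_unbounded {H : Type*} [NormedAddCommGroup H] [InnerProductSpace ℝ H]
    (u : ℤ → H) (f : ℤ → ℝ) (hf : ∀ m n, ‖u m - u n‖ = f (m - n))
    (h2 : ∀ n, f (2 * n) = f n) (h3 : ∀ n, f (3 * n) = f n) (hunb : ∀ C : ℝ, ∃ n, C < f n) :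
    NoGap := by
  intro c hc
  obtain ⟨r, hr0, hr1, hr⟩ := exists_r c hc
  have hf1 : 0 ≤ f 1 := by
    have := hf 1 0
    rw [sub_zero (1 : ℤ)] at this
    rw [← this]
    exact norm_nonneg _
  obtain ⟨n, hn⟩ := hunb (4 * f 1 ^ 2 / (1 - r) + 1)
  have hpos : 0 ≤ 4 * f 1 ^ 2 / (1 - r) := div_nonneg (by positivity) (by linarith)
  have hn1 : 1 < f n := by linarith
  have hnn : f n ≤ f n ^ 2 := by nlinarith
  have hn2 : 4 * f 1 ^ 2 / (1 - r) < f n ^ 2 := by linarith
  have hfn : 0 < f n ^ 2 := by positivity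
  obtain ⟨μ, hμ⟩ := exists_meas u f hf (1 / f n ^ 2) (by positivity)
  have hinv : Inv μ := by
    rw [inv_iff_F]
    intro k
    rw [hμ, hμ, hμ]
    have e2 : k * ((2 : ℕ) : ℤ) = 2 * k := by push_cast; ring
    have e3 : k * ((3 : ℕ) : ℤ) = 3 * k := by push_cast; ring
    rw [e2, e3, h2, h3]
    exact ⟨rfl, rfl⟩
  have hq : 1 / 4 ≤ (μ : Measure UnitAddCircle).real {0}ᶜ := by
    have h := two_mul_ge μ n
    rw [hμ n, Complex.ofReal_re] at h
    have e : -(1 / f n ^ 2 * f n ^ 2) = -1 := by field_simp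
    rw [e] at h
    have := Real.exp_neg_one_lt_half
    linarith
  have h0 : (μ : Measure UnitAddCircle) {0}ᶜ ≠ 0 := by
    intro h
    rw [measureReal_def, h] at hq
    simp at hq
    linarith
  refine ⟨cnd μ h0, cnd_inv μ h0 hinv, cnd_zero μ h0, ?_⟩
  by_contra hcon
  have h4 := hr (cnd μ h0) (cnd_inv μ h0 hinv) (not_le.1 hcon).le
  have h5 := (Complex.re_le_norm (F 1 (cnd μ h0))).trans h4
  have h6 := cnd_re μ h0
  have h7 : (F 1 μ).re = Real.exp (-(1 / f n ^ 2 * f 1 ^ 2)) := by rw [hμ, Complex.ofReal_re]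
  have h8 := Real.add_one_le_exp (-(1 / f n ^ 2 * f 1 ^ 2))
  have h9 : 1 - (F 1 μ).re ≤ 1 / f n ^ 2 * f 1 ^ 2 := by rw [h7]; linarith
  have h10 : ((μ : Measure UnitAddCircle).real {0}ᶜ)⁻¹ ≤ 4 := by
    rw [inv_le_comm₀ (by linarith) (by norm_num)]
    linarith
  have h11 : 0 ≤ 1 - (F 1 μ).re := by
    have := (Complex.re_le_norm (F 1 μ)).trans (norm_F_le 1 μ)
    linarith
  have h12 : 1 - (F 1 (cnd μ h0)).re ≤ 4 * (1 / f n ^ 2 * f 1 ^ 2) := by
    rw [h6]
    exact mul_le_mul h10 h9 h11 (by norm_num)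
  have h13 : 4 * (1 / f n ^ 2 * f 1 ^ 2) < 1 - r := by
    have h14 : 4 * f 1 ^ 2 < f n ^ 2 * (1 - r) := by
      rwa [div_lt_iff₀ (by linarith)] at hn2
    have e : 4 * (1 / f n ^ 2 * f 1 ^ 2) = 4 * f 1 ^ 2 / f n ^ 2 := by ring
    rw [e, div_lt_iff₀ hfn]
    linarith
  linarith

end Pool.Agent.Helper95.FP
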