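import Pool.Agent.Helper95.FP.FixP

set_option autoImplicit false

open Filter Topology UniformSpace

namespace Pool.Agent.Helper95.FP

universe u

variable {H0 : Type u} [NormedAddCommGroup H0] [InnerProductSpace ℝ H0]

/-- The sequences which are eventually compatible with `s`. -/
def Vs (s : H0 →ₗᵢ[ℝ] H0) : Submodule ℝ (ℕ → H0) where
  carrier := {F | ∀ᶠ n in atTop, F (n + 1) = s (F n)}
  add_mem' := by
    intro F G hF hG
    filter_upwards [hF, hG] with n h1 h2
    rw [Pi.add_apply, Pi.add_apply, h1, h2, map_add]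
  zero_mem' := by
    refine Eventually.of_forall fun n => ?_
    simp
  smul_mem' := by
    intro c F hF
    filter_upwards [hF] with n h1
    rw [Pi.smul_apply, Pi.smul_apply, h1, map_smul]

/-- The same space, without the product topology. -/
def VV (s : H0 →ₗᵢ[ℝ] H0) : Type u := Vs s

variable {s : H0 →ₗᵢ[ℝ] H0}

instance : AddCommGroup (VV s) := inferInstanceAs (AddCommGroup (Vs s))
instance : Module ℝ (VV s) := inferInstanceAs (Module ℝ (Vs s))

/-- The underlying sequence. -/
def sq (F : VV s) : ℕ → H0 := Subtype.val (p := fun F => F ∈ Vs s) F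

/-- The element with a given sequence. -/
def mkV (F : ℕ → H0) (h : ∀ᶠ n in atTop, F (n + 1) = s (F n)) : VV s :=
  Subtype.mk (p := fun F => F ∈ Vs s) F h

lemma sq_mkV (F : ℕ → H0) (h : ∀ᶠ n in atTop, F (n + 1) = s (F n)) : sq (mkV F h : VV s) = F := rfl

lemma sq_prop (F : VV s) : ∀ᶠ n in atTop, sq F (n + 1) = s (sq F n) :=
  Subtype.property (p := fun F => F ∈ Vs s) F

lemma sq_add (F G : VV s) (n : ℕ) : sq (F + G) n = sq F n + sq G n := rfl
lemma sq_sub (F G : VV s) (n : ℕ) : sq (F - G) n = sq F n - sq G n := rfl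
lemma sq_smul (c : ℝ) (F : VV s) (n : ℕ) : sq (c • F) n = c • sq F n := rfl
lemma sq_zero (n : ℕ) : sq (0 : VV s) n = 0 := rfl

/-- The limit inner product. -/
noncomputable def ip (F G : VV s) : ℝ := limUnder atTop fun n => inner ℝ (sq F n) (sq G n)

lemma tendsto_ip (F G : VV s) :
    Tendsto (fun n => inner ℝ (sq F n) (sq G n)) atTop (𝓝 (ip F G)) := by
  obtain ⟨N, hN⟩ := eventually_atTop.1 ((sq_prop F).and (sq_prop G))
  have hc : ∀ n, N ≤ n → inner ℝ (sq F n) (sq G n) = inner ℝ (sq F N) (sq G N) := by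
    intro n hn
    induction n, hn using Nat.le_induction with
    | base => rfl
    | succ n hn ih =>
      rw [(hN n hn).1, (hN n hn).2, s.inner_map_map, ih]
  have ht : Tendsto (fun n => inner ℝ (sq F n) (sq G n)) atTop
      (𝓝 (inner ℝ (sq F N) (sq G N))) := by
    refine tendsto_const_nhds.congr' ?_
    filter_upwards [eventually_ge_atTop N] with n hn
    exact (hc n hn).symm
  unfold ip
  rw [ht.limUnder_eq]
  exact ht

noncomputable instance instCore : PreInnerProductSpace.Core ℝ (VV s) where
  inner F G := ip F G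
  conj_inner_symm F G := by
    change ip G F = ip F G
    refine tendsto_nhds_unique (tendsto_ip G F) ?_
    simp_rw [real_inner_comm (sq F _) (sq G _)]
    exact tendsto_ip F G
  re_inner_nonneg F := by
    change 0 ≤ ip F F
    exact ge_of_tendsto' (tendsto_ip F F) fun n => real_inner_self_nonneg
  add_left F G K := by
    change ip (F + G) K = ip F K + ip G K
    refine tendsto_nhds_unique (tendsto_ip (F + G) K) ?_
    simp_rw [sq_add, inner_add_left]
    exact (tendsto_ip F K).add (tendsto_ip G K)
  smul_left F G c := by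
    change ip (c • F) G = c * ip F G
    refine tendsto_nhds_unique (tendsto_ip (c • F) G) ?_
    simp_rw [sq_smul, real_inner_smul_left]
    exact (tendsto_ip F G).const_mul c

noncomputable instance instSem : SeminormedAddCommGroup (VV s) :=
  InnerProductSpace.Core.toSeminormedAddCommGroup (𝕜 := ℝ)

noncomputable instance instIPS : InnerProductSpace ℝ (VV s) := .ofCore _

lemma tendsto_norm (F : VV s) : Tendsto (fun n => ‖sq F n‖) atTop (𝓝 ‖F‖) := by
  have h := (Real.continuous_sqrt.tendsto _).comp (tendsto_ip F F)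
  have e : ‖F‖ = Real.sqrt (ip F F) := rfl
  rw [e]
  refine h.congr fun n => ?_
  simp only [Function.comp_apply]
  rw [real_inner_self_eq_norm_sq, Real.sqrt_sq (norm_nonneg _)]

lemma tendsto_dist (F G : VV s) : Tendsto (fun n => dist (sq F n) (sq G n)) atTop
    (𝓝 (dist F G)) := by
  have h := tendsto_norm (F - G)
  rw [dist_eq_norm]
  refine h.congr fun n => ?_
  rw [sq_sub, dist_eq_norm]

lemma isom_of (g : VV s → VV s)
    (h : ∀ F G : VV s, Tendsto (fun n => dist (sq (g F) n) (sq (g G) n)) atTop (𝓝 (dist F G))) :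
    Isometry g :=
  Isometry.of_dist_eq fun F G => tendsto_nhds_unique (tendsto_dist (g F) (g G)) (h F G)

lemma coe_eq (F G : VV s) (h : ∀ᶠ n in atTop, sq F n = sq G n) :
    (F : Completion (VV s)) = (G : Completion (VV s)) := by
  apply eq_of_dist_eq_zero
  rw [Completion.dist_eq]
  refine tendsto_nhds_unique (tendsto_dist F G) ?_
  refine tendsto_const_nhds.congr' ?_
  filter_upwards [h] with n hn
  rw [hn, dist_self]

/-- Two mutually inverse isometries of the space of sequences give an isometry of the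
completion. -/
noncomputable def lift (g h : VV s → VV s) (hg : Isometry g) (hh : Isometry h)
    (hgh : ∀ F, ∀ᶠ n in atTop, sq (g (h F)) n = sq F n)
    (hhg : ∀ F, ∀ᶠ n in atTop, sq (h (g F)) n = sq F n) :
    Completion (VV s) ≃ᵢ Completion (VV s) where
  toFun := Completion.map g
  invFun := Completion.map h
  left_inv x := by
    induction x using Completion.induction_on with
    | hp =>
      exact isClosed_eq (Completion.continuous_map.comp Completion.continuous_map) continuous_id
    | ih F =>
      rw [Completion.map_coe hg.uniformContinuous, Completion.map_coe hh.uniformContinuous]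
      exact coe_eq _ _ (hhg F)
  right_inv x := by
    induction x using Completion.induction_on with
    | hp =>
      exact isClosed_eq (Completion.continuous_map.comp Completion.continuous_map) continuous_id
    | ih F =>
      rw [Completion.map_coe hh.uniformContinuous, Completion.map_coe hg.uniformContinuous]
      exact coe_eq _ _ (hgh F)
  isometry_toFun := hg.completion_map

lemma lift_coe (g h : VV s → VV s) (hg : Isometry g) (hh : Isometry h)
    (hgh : ∀ F, ∀ᶠ n in atTop, sq (g (h F)) n = sq F n)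
    (hhg : ∀ F, ∀ᶠ n in atTop, sq (h (g F)) n = sq F n) (F : VV s) :
    lift g h hg hh hgh hhg (F : Completion (VV s)) = ((g F : VV s) : Completion (VV s)) :=
  Completion.map_coe hg.uniformContinuous F

/-- Application of a commuting isometry. -/
def ap (g : H0 →ₗᵢ[ℝ] H0) (hg : ∀ x, g (s x) = s (g x)) (F : VV s) : VV s :=
  mkV (fun n => g (sq F n)) (by
    filter_upwards [sq_prop F] with n hn
    rw [hn, hg])

/-- Application of a commuting isometry, and a shift. -/
def aps (g : H0 →ₗᵢ[ℝ] H0) (hg : ∀ x, g (s x) = s (g x)) (F : VV s) : VV s :=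
  mkV (fun n => g (sq F (n - 1))) (by
    filter_upwards [(tendsto_sub_atTop_nat 1).eventually (sq_prop F), eventually_ge_atTop 1]
      with n hn h1
    have e : n - 1 + 1 = n + 1 - 1 := by omega
    rw [e] at hn
    rw [hn, hg])

lemma ap_isom (g : H0 →ₗᵢ[ℝ] H0) (hg : ∀ x, g (s x) = s (g x)) : Isometry (ap (s := s) g hg) := by
  refine isom_of _ fun F G => ?_
  refine (tendsto_dist F G).congr fun n => ?_
  exact (g.isometry.dist_eq _ _).symm

lemma aps_isom (g : H0 →ₗᵢ[ℝ] H0) (hg : ∀ x, g (s x) = s (g x)) : Isometry (aps (s := s) g hg) := by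
  refine isom_of _ fun F G => ?_
  refine ((tendsto_dist F G).comp (tendsto_sub_atTop_nat 1)).congr fun n => ?_
  exact (g.isometry.dist_eq _ _).symm

lemma tz_exp (t : H0 ≃ᵢ H0) (hst : ∀ x, s (t x) = (t ^ 6) (s x)) (k : ℤ) (n : ℕ) (x : H0) :
    (t ^ ((6 : ℤ) ^ (n + 1) * k)) (s x) = s ((t ^ ((6 : ℤ) ^ n * k)) x) := by
  have h := inter_zpow s t 6 hst ((6 : ℤ) ^ n * k) x
  rw [h]
  congr 2
  push_cast
  ring

/-- The action of the integers. -/
def tz (t : H0 ≃ᵢ H0) (hst : ∀ x, s (t x) = (t ^ 6) (s x)) (k : ℤ) (F : VV s) : VV s :=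
  mkV (fun n => (t ^ ((6 : ℤ) ^ n * k)) (sq F n)) (by
    filter_upwards [sq_prop F] with n hn
    rw [hn, tz_exp t hst])

lemma tz_isom (t : H0 ≃ᵢ H0) (hst : ∀ x, s (t x) = (t ^ 6) (s x)) (k : ℤ) :
    Isometry (tz (s := s) t hst k) := by
  refine isom_of _ fun F G => ?_
  refine (tendsto_dist F G).congr fun n => ?_
  exact ((t ^ ((6 : ℤ) ^ n * k)).isometry.dist_eq _ _).symm

lemma tz_add (t : H0 ≃ᵢ H0) (hst : ∀ x, s (t x) = (t ^ 6) (s x)) (k l : ℤ) (F : VV s) (n : ℕ) :
    sq (tz t hst k (tz t hst l F)) n = sq (tz t hst (k + l) F) n := by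
  change (t ^ ((6 : ℤ) ^ n * k) * t ^ ((6 : ℤ) ^ n * l)) (sq F n) =
    (t ^ ((6 : ℤ) ^ n * (k + l))) (sq F n)
  rw [← zpow_add, mul_add]

lemma tz_zero (t : H0 ≃ᵢ H0) (hst : ∀ x, s (t x) = (t ^ 6) (s x)) (F : VV s) (n : ℕ) :
    sq (tz t hst 0 F) n = sq F n := by
  change (t ^ ((6 : ℤ) ^ n * 0)) (sq F n) = sq F n
  rw [mul_zero, zpow_zero]
  rfl

/-- An action by distance preserving maps without fixed points extends to an action by
bijective isometries without fixed points. -/
theorem ext_group [CompleteSpace H0] (a b : H0 →ₗᵢ[ℝ] H0) (t : H0 ≃ᵢ H0)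
    (hab : ∀ x, a (b x) = b (a x)) (hat : ∀ x, a (t x) = t (t (a x)))
    (hbt : ∀ x, b (t x) = t (t (t (b x)))) (hfix : ∀ x, t x ≠ x) :
    ∃ (H : Type u) (_ : NormedAddCommGroup H) (_ : InnerProductSpace ℝ H) (_ : CompleteSpace H)
      (a' b' t' : H ≃ᵢ H), a' * b' = b' * a' ∧ a' * t' = t' ^ 2 * a' ∧ b' * t' = t' ^ 3 * b' ∧
      (∃ v, a' v = v ∧ b' v = v) ∧ ∀ x, t' x ≠ x := by
  obtain ⟨s, hs⟩ : ∃ s : H0 →ₗᵢ[ℝ] H0, s = a.comp b := ⟨_, rfl⟩
  have hs' : ∀ x, s x = a (b x) := fun x => by rw [hs]; rfl
  have has : ∀ x, a (s x) = s (a x) := fun x => by rw [hs', hs', ← hab x]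
  have hbs : ∀ x, b (s x) = s (b x) := fun x => by rw [hs', hs', ← hab]
  have hst : ∀ x, s (t x) = (t ^ 6) (s x) := by
    intro x
    rw [hs', hbt, hat, hat, hat, hs']
    rfl
  let A := lift (s := s) (ap a has) (aps b hbs) (ap_isom _ _) (aps_isom _ _)
    (fun F => by
      filter_upwards [(tendsto_sub_atTop_nat 1).eventually (sq_prop F), eventually_ge_atTop 1]
        with n hn h1
      change a (b (sq F (n - 1))) = sq F n
      have e : n - 1 + 1 = n := by omega
      rw [e] at hn
      rw [hn, hs'])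
    (fun F => by
      filter_upwards [(tendsto_sub_atTop_nat 1).eventually (sq_prop F), eventually_ge_atTop 1]
        with n hn h1
      change b (a (sq F (n - 1))) = sq F n
      have e : n - 1 + 1 = n := by omega
      rw [e] at hn
      rw [hn, hs', hab])
  let B := lift (s := s) (ap b hbs) (aps a has) (ap_isom _ _) (aps_isom _ _)
    (fun F => by
      filter_upwards [(tendsto_sub_atTop_nat 1).eventually (sq_prop F), eventually_ge_atTop 1]
        with n hn h1
      change b (a (sq F (n - 1))) = sq F n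
      have e : n - 1 + 1 = n := by omega
      rw [e] at hn
      rw [hn, hs', hab])
    (fun F => by
      filter_upwards [(tendsto_sub_atTop_nat 1).eventually (sq_prop F), eventually_ge_atTop 1]
        with n hn h1
      change a (b (sq F (n - 1))) = sq F n
      have e : n - 1 + 1 = n := by omega
      rw [e] at hn
      rw [hn, hs'])
  let TT : ℤ → (Completion (VV s) ≃ᵢ Completion (VV s)) := fun k =>
    lift (s := s) (tz t hst k) (tz t hst (-k)) (tz_isom _ _ _) (tz_isom _ _ _)
      (fun F => Eventually.of_forall fun n => by rw [tz_add, add_neg_cancel, tz_zero])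
      (fun F => Eventually.of_forall fun n => by rw [tz_add, neg_add_cancel, tz_zero])
  have hA : ∀ F : VV s, A (F : Completion (VV s)) = ((ap a has F : VV s) : Completion (VV s)) :=
    fun F => lift_coe _ _ _ _ _ _ F
  have hB : ∀ F : VV s, B (F : Completion (VV s)) = ((ap b hbs F : VV s) : Completion (VV s)) :=
    fun F => lift_coe _ _ _ _ _ _ F
  have hT : ∀ (k : ℤ) (F : VV s), TT k (F : Completion (VV s)) =
      ((tz t hst k F : VV s) : Completion (VV s)) :=
    fun k F => lift_coe _ _ _ _ _ _ F
  have hTadd : ∀ (k l : ℤ) (x : Completion (VV s)), TT k (TT l x) = TT (k + l) x := by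
    intro k l x
    induction x using Completion.induction_on with
    | hp =>
      exact isClosed_eq ((TT k).continuous.comp (TT l).continuous) (TT (k + l)).continuous
    | ih F =>
      rw [hT, hT, hT]
      exact coe_eq _ _ (Eventually.of_forall fun n => tz_add t hst k l F n)
  have hpow : ∀ (g : VV s → VV s) (G G' : Completion (VV s) ≃ᵢ Completion (VV s)),
      (∀ F : VV s, G F = G' F) → G = G' := by
    intro g G G' h
    ext x
    induction x using Completion.induction_on with
    | hp => exact isClosed_eq G.continuous G'.continuous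
    | ih F => exact h F
  refine ⟨Completion (VV s), inferInstance, inferInstance, inferInstance, A, B, TT 1, ?_, ?_, ?_,
    ⟨((0 : VV s) : Completion (VV s)), ?_, ?_⟩, ?_⟩
  · refine hpow id _ _ fun F => ?_
    change A (B F) = B (A F)
    rw [hA, hB, hA, hB]
    exact coe_eq _ _ (Eventually.of_forall fun n => hab (sq F n))
  · refine hpow id _ _ fun F => ?_
    rw [pow_two]
    change A (TT 1 F) = TT 1 (TT 1 (A F))
    rw [hTadd, hT, hA, hA, hT]
    refine coe_eq _ _ (Eventually.of_forall fun n => ?_)
    change a ((t ^ ((6 : ℤ) ^ n * 1)) (sq F n)) = (t ^ ((6 : ℤ) ^ n * (1 + 1))) (a (sq F n))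
    have h := inter_zpow a t 2 (fun x => by rw [hat, pow_two]; rfl) ((6 : ℤ) ^ n * 1) (sq F n)
    rw [h]
    congr 2
    push_cast
    ring
  · refine hpow id _ _ fun F => ?_
    rw [pow_succ, pow_two]
    change B (TT 1 F) = TT 1 (TT 1 (TT 1 (B F)))
    rw [hTadd, hTadd, hT, hB, hB, hT]
    refine coe_eq _ _ (Eventually.of_forall fun n => ?_)
    change b ((t ^ ((6 : ℤ) ^ n * 1)) (sq F n)) = (t ^ ((6 : ℤ) ^ n * (1 + (1 + 1)))) (b (sq F n))
    have h := inter_zpow b t 3 (fun x => by rw [hbt, pow_succ, pow_two]; rfl) ((6 : ℤ) ^ n * 1)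
      (sq F n)
    rw [h]
    congr 2
    push_cast
    ring
  · rw [hA]
    refine coe_eq _ _ (Eventually.of_forall fun n => ?_)
    change a (sq (0 : VV s) n) = sq (0 : VV s) n
    rw [sq_zero, map_zero]
  · rw [hB]
    refine coe_eq _ _ (Eventually.of_forall fun n => ?_)
    change b (sq (0 : VV s) n) = sq (0 : VV s) n
    rw [sq_zero, map_zero]
  · intro w hw
    have hwk : ∀ k : ℕ, TT k w = w := by
      intro k
      induction k with
      | zero =>
        have h := hTadd 0 1 w
        rw [hw, zero_add, hw] at h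
        exact_mod_cast h
      | succ k ih =>
        have h := hTadd k 1 w
        rw [hw, ih] at h
        push_cast
        exact h.symm
    have hwz : ∀ k : ℤ, TT k w = w := by
      intro k
      obtain ⟨m, rfl | rfl⟩ := k.eq_nat_or_neg
      · exact hwk m
      · have h := hTadd (-(m : ℤ)) m w
        rw [hwk m, neg_add_cancel] at h
        rw [h]
        exact_mod_cast hwk 0
    have hbd : ∀ k : ℤ, ‖(t ^ k) 0‖ ≤ 2 * dist ((0 : VV s) : Completion (VV s)) w := by
      intro k
      have h1 : dist ((tz t hst k 0 : VV s) : Completion (VV s)) w =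
          dist ((0 : VV s) : Completion (VV s)) w := by
        rw [← hT, ← (TT k).isometry.dist_eq ((0 : VV s) : Completion (VV s)) w, hwz]
      have h2 : dist (tz t hst k 0 : VV s) 0 ≤ 2 * dist ((0 : VV s) : Completion (VV s)) w := by
        rw [← Completion.dist_eq]
        have := dist_triangle_right ((tz t hst k 0 : VV s) : Completion (VV s))
          ((0 : VV s) : Completion (VV s)) w
        linarith
      have h3 : Tendsto (fun n => dist (sq (tz t hst k (0 : VV s)) n) (sq (0 : VV s) n)) atTop
          (𝓝 ‖(t ^ k) 0‖) := by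
        refine tendsto_const_nhds.congr fun n => ?_
        change ‖(t ^ k) 0‖ = dist ((t ^ ((6 : ℤ) ^ n * k)) (0 : H0)) 0
        rw [dist_zero_right]
        induction n with
        | zero => rw [pow_zero, one_mul]
        | succ n ih =>
          have h := tz_exp t hst k n 0
          rw [map_zero] at h
          rw [h, s.norm_map, ih]
      rwa [← tendsto_nhds_unique (tendsto_dist (tz t hst k (0 : VV s)) 0) h3]
    obtain ⟨z, hz⟩ := exists_center (Set.range fun n : ℤ => (t ^ n) (0 : H0)) ⟨_, 0, rfl⟩ _ (by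
      rintro _ ⟨n, rfl⟩
      exact hbd n)
    refine hfix z (hz t t.isometry ?_)
    ext x
    constructor
    · rintro ⟨_, ⟨n, rfl⟩, rfl⟩
      refine ⟨1 + n, ?_⟩
      change (t ^ (1 + n)) (0 : H0) = (t * t ^ n) 0
      rw [zpow_add, zpow_one]
    · rintro ⟨n, rfl⟩
      refine ⟨(t ^ (n - 1)) 0, ⟨n - 1, rfl⟩, ?_⟩
      change (t * t ^ (n - 1)) (0 : H0) = (t ^ n) 0
      rw [← zpow_one_add]
      congr 2
      ring

end Pool.Agent.Helper95.FP
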