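import Pool.Agent.Helper95.FP.Center

set_option autoImplicit false

open Filter Topology

namespace Pool.Agent.Helper95.FP

variable {H : Type*} [NormedAddCommGroup H] [InnerProductSpace ℝ H]

/-- a distance preserving map which intertwines `t` and `t ^ k` -/
lemma inter_zpow (g : H → H) (t : H ≃ᵢ H) (k : ℕ) (h : ∀ x, g (t x) = (t ^ k) (g x)) (n : ℤ)
    (x : H) : g ((t ^ n) x) = (t ^ (k * n)) (g x) := by
  have hneg : ∀ x, g (t⁻¹ x) = (t ^ (-(k : ℤ))) (g x) := by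
    intro x
    have h1 := h (t⁻¹ x)
    have e : t (t⁻¹ x) = x := by
      change (t * t⁻¹) x = x
      rw [mul_inv_cancel]
      rfl
    rw [e] at h1
    rw [h1]
    change _ = (t ^ (-(k : ℤ)) * t ^ k) (g (t⁻¹ x))
    rw [zpow_neg, zpow_natCast, inv_mul_cancel]
    rfl
  induction n using Int.induction_on generalizing x with
  | zero => simp
  | succ n ih =>
    have e : (t ^ ((n : ℤ) + 1)) x = (t ^ (n : ℤ)) (t x) := by
      rw [zpow_add_one]
      rfl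
    rw [e, ih, h]
    change (t ^ ((k : ℤ) * n) * t ^ k) (g x) = _
    rw [← zpow_natCast t k, ← zpow_add]
    congr 2
  | pred n ih =>
    have e : (t ^ (-(n : ℤ) - 1)) x = (t ^ (-(n : ℤ))) (t⁻¹ x) := by
      rw [zpow_sub_one]
      rfl
    rw [e, ih, hneg]
    change (t ^ ((k : ℤ) * -n) * t ^ (-(k : ℤ))) (g x) = _
    rw [← zpow_add]
    congr 2
    ring

lemma dist_orbit (t : H ≃ᵢ H) (v : H) (m n : ℤ) :
    ‖(t ^ m) v - (t ^ n) v‖ = ‖(t ^ (m - n)) v - v‖ := by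
  rw [← dist_eq_norm, ← dist_eq_norm]
  have e : (t ^ m) v = (t ^ n) ((t ^ (m - n)) v) := by
    change _ = (t ^ n * t ^ (m - n)) v
    rw [← zpow_add]
    congr 2
    ring
  rw [e, (t ^ n).isometry.dist_eq]

/-- All `×2`, `×3`-invariant Hilbert metrics on the integers realised in `H` are bounded. -/
def Bdd (H : Type*) [NormedAddCommGroup H] [InnerProductSpace ℝ H] : Prop :=
  ∀ (u : ℤ → H) (f : ℤ → ℝ), (∀ m n, ‖u m - u n‖ = f (m - n)) →
    (∀ n, f (2 * n) = f n ∧ f (3 * n) = f n) → ∃ C, ∀ n, f n ≤ C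

lemma orbit_bdd (hB : Bdd H) (a b : H → H) (t : H ≃ᵢ H) (ha : Isometry a) (hb : Isometry b)
    (hat : ∀ x, a (t x) = t (t (a x))) (hbt : ∀ x, b (t x) = t (t (t (b x)))) (v : H)
    (hav : a v = v) (hbv : b v = v) : ∃ C : ℝ, ∀ n : ℤ, ‖(t ^ n) v - v‖ ≤ C := by
  have ha' : ∀ x, a (t x) = (t ^ 2) (a x) := fun x => by rw [hat, pow_two]; rfl
  have hb' : ∀ x, b (t x) = (t ^ 3) (b x) := fun x => by rw [hbt, pow_succ, pow_two]; rfl
  refine hB (fun n => (t ^ n) v) (fun n => ‖(t ^ n) v - v‖) (fun m n => dist_orbit t v m n) ?_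
  intro n
  have h2 := inter_zpow a t 2 ha' n v
  have h3 := inter_zpow b t 3 hb' n v
  rw [hav] at h2
  rw [hbv] at h3
  constructor
  · change ‖(t ^ (((2 : ℕ) : ℤ) * n)) v - v‖ = _
    rw [← h2, ← dist_eq_norm, ← dist_eq_norm]
    calc dist (a ((t ^ n) v)) v = dist (a ((t ^ n) v)) (a v) := by rw [hav]
      _ = _ := ha.dist_eq _ _
  · change ‖(t ^ (((3 : ℕ) : ℤ) * n)) v - v‖ = _
    rw [← h3, ← dist_eq_norm, ← dist_eq_norm]
    calc dist (b ((t ^ n) v)) v = dist (b ((t ^ n) v)) (b v) := by rw [hbv]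
      _ = _ := hb.dist_eq _ _

theorem fix_semi [CompleteSpace H] (hB : Bdd H) (a b : H → H) (t : H ≃ᵢ H) (ha : Isometry a) (hb : Isometry b)
    (hat : ∀ x, a (t x) = t (t (a x))) (hbt : ∀ x, b (t x) = t (t (t (b x))))
    (hv : ∃ v, a v = v ∧ b v = v) : ∃ w, t w = w := by
  obtain ⟨v, hav, hbv⟩ := hv
  obtain ⟨C, hC⟩ := orbit_bdd hB a b t ha hb hat hbt v hav hbv
  obtain ⟨z, hz⟩ := exists_center (Set.range fun n : ℤ => (t ^ n) v) ⟨_, 0, rfl⟩ (C + ‖v‖) (by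
    rintro _ ⟨n, rfl⟩
    have := norm_add_le ((t ^ n) v - v) v
    rw [sub_add_cancel] at this
    linarith [hC n])
  refine ⟨z, hz t t.isometry ?_⟩
  ext x
  constructor
  · rintro ⟨_, ⟨n, rfl⟩, rfl⟩
    refine ⟨1 + n, ?_⟩
    change (t ^ (1 + n)) v = (t * t ^ n) v
    rw [zpow_add, zpow_one]
  · rintro ⟨n, rfl⟩
    refine ⟨(t ^ (n - 1)) v, ⟨n - 1, rfl⟩, ?_⟩
    change (t * t ^ (n - 1)) v = (t ^ n) v
    rw [← zpow_one_add]
    congr 2
    ring

/-- The orbit of `v` under the group generated by `a`, `b`, `t`. -/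
theorem fix_group [CompleteSpace H] (hB : Bdd H) (a b t : H ≃ᵢ H) (hab : a * b = b * a) (hat : a * t = t ^ 2 * a)
    (hbt : b * t = t ^ 3 * b) (hv : ∃ v, a v = v ∧ b v = v) :
    ∃ w, a w = w ∧ b w = w ∧ t w = w := by
  obtain ⟨v, hav, hbv⟩ := hv
  obtain ⟨C, hC⟩ := orbit_bdd hB a b t a.isometry b.isometry
    (fun x => by
      have := congrArg (fun g : H ≃ᵢ H => g x) hat
      rw [pow_two] at this
      exact this)
    (fun x => by
      have := congrArg (fun g : H ≃ᵢ H => g x) hbt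
      rw [pow_succ, pow_two] at this
      exact this) v hav hbv
  obtain ⟨c, hc⟩ : ∃ c : H ≃ᵢ H, c = a * b := ⟨_, rfl⟩
  have sa : SemiconjBy a t (t ^ 2) := hat
  have sb : SemiconjBy b t (t ^ 3) := hbt
  have sc : SemiconjBy c t (t ^ 6) := by
    have h := (sa.pow_right 3).mul_left sb
    rw [← pow_mul, ← hc] at h
    exact h
  have sci : ∀ i : ℕ, SemiconjBy (c ^ i) t (t ^ (6 ^ i)) := by
    intro i
    induction i with
    | zero => simp
    | succ i ih =>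
      rw [pow_succ']
      have h := (sc.pow_right (6 ^ i)).mul_left ih
      rw [← pow_mul] at h
      rw [pow_succ' 6 i]
      exact h
  have hca : Commute c a := by
    have : c * a = a * c := by rw [hc, mul_assoc, ← hab]
    exact this
  have hcb : Commute c b := by
    have : c * b = b * c := by rw [hc, hab, mul_assoc, hab]
    exact this
  have hcv : ∀ i : ℕ, (c ^ i) v = v := by
    intro i
    induction i with
    | zero => simp
    | succ i ih =>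
      rw [pow_succ]
      change (c ^ i) (c v) = v
      have : c v = v := by
        rw [hc]
        change a (b v) = v
        rw [hbv, hav]
      rw [this, ih]
  have hatn : ∀ n : ℤ, (a * t ^ n) v = (t ^ (2 * n)) v := by
    intro n
    have h := sa.zpow_right n
    have e : (t ^ 2) ^ n = t ^ (2 * n) := by
      rw [← zpow_natCast t 2, ← zpow_mul]
      rfl
    rw [e] at h
    rw [h.eq]
    change (t ^ (2 * n)) (a v) = _
    rw [hav]
  have hbtn : ∀ n : ℤ, (b * t ^ n) v = (t ^ (3 * n)) v := by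
    intro n
    have h := sb.zpow_right n
    have e : (t ^ 3) ^ n = t ^ (3 * n) := by
      rw [← zpow_natCast t 3, ← zpow_mul]
      rfl
    rw [e] at h
    rw [h.eq]
    change (t ^ (3 * n)) (b v) = _
    rw [hbv]
  let S : Set H := {x | ∃ (i : ℕ) (n : ℤ), x = ((c ^ i)⁻¹ * t ^ n) v}
  have hSa : ∀ x ∈ S, a x ∈ S := by
    rintro _ ⟨i, n, rfl⟩
    refine ⟨i, 2 * n, ?_⟩
    change (a * ((c ^ i)⁻¹ * t ^ n)) v = _
    rw [← mul_assoc, ((hca.pow_left i).inv_left).symm.eq, mul_assoc]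
    change ((c ^ i)⁻¹) ((a * t ^ n) v) = _
    rw [hatn]
    rfl
  have hSb : ∀ x ∈ S, b x ∈ S := by
    rintro _ ⟨i, n, rfl⟩
    refine ⟨i, 3 * n, ?_⟩
    change (b * ((c ^ i)⁻¹ * t ^ n)) v = _
    rw [← mul_assoc, ((hcb.pow_left i).inv_left).symm.eq, mul_assoc]
    change ((c ^ i)⁻¹) ((b * t ^ n) v) = _
    rw [hbtn]
    rfl
  have hSc : ∀ x ∈ S, c⁻¹ x ∈ S := by
    rintro _ ⟨i, n, rfl⟩
    refine ⟨i + 1, n, ?_⟩
    rw [pow_succ, mul_inv_rev]
    rfl
  have hSa' : ∀ x ∈ S, a⁻¹ x ∈ S := by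
    intro x hx
    have e : a⁻¹ = c⁻¹ * b := by rw [hc, hab, mul_inv_rev, mul_assoc, inv_mul_cancel, mul_one]
    rw [e]
    exact hSc _ (hSb _ hx)
  have hSb' : ∀ x ∈ S, b⁻¹ x ∈ S := by
    intro x hx
    have e : b⁻¹ = c⁻¹ * a := by rw [hc, mul_inv_rev, mul_assoc, inv_mul_cancel, mul_one]
    rw [e]
    exact hSc _ (hSa _ hx)
  have htz : ∀ (i : ℕ) (k : ℤ), t ^ k * (c ^ i)⁻¹ = (c ^ i)⁻¹ * t ^ ((6 ^ i : ℕ) * k : ℤ) := by
    intro i k
    have h := (sci i).zpow_right k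
    have e : (t ^ (6 ^ i)) ^ k = t ^ (((6 ^ i : ℕ) : ℤ) * k) := by
      rw [← zpow_natCast t (6 ^ i), ← zpow_mul]
    rw [e] at h
    have h2 := h.inv_symm_left
    exact h2.eq.symm
  have hSt : ∀ (k : ℤ), ∀ x ∈ S, (t ^ k) x ∈ S := by
    rintro k _ ⟨i, n, rfl⟩
    refine ⟨i, (6 ^ i : ℕ) * k + n, ?_⟩
    change (t ^ k * ((c ^ i)⁻¹ * t ^ n)) v = _
    rw [← mul_assoc, htz, mul_assoc, ← zpow_add]
  have himg : ∀ g : H ≃ᵢ H, (∀ x ∈ S, g x ∈ S) → (∀ x ∈ S, g⁻¹ x ∈ S) → g '' S = S := by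
    intro g h1 h2
    ext x
    constructor
    · rintro ⟨y, hy, rfl⟩
      exact h1 y hy
    · intro hx
      refine ⟨g⁻¹ x, h2 x hx, ?_⟩
      change (g * g⁻¹) x = x
      rw [mul_inv_cancel]
      rfl
  obtain ⟨z, hz⟩ := exists_center S ⟨((c ^ 0)⁻¹ * t ^ (0 : ℤ)) v, 0, 0, rfl⟩ (C + ‖v‖) (by
    rintro _ ⟨i, n, rfl⟩
    have h1 : ‖((c ^ i)⁻¹ * t ^ n) v - v‖ ≤ C := by
      have e : ‖((c ^ i)⁻¹ * t ^ n) v - v‖ = ‖(t ^ n) v - v‖ := by
        rw [← dist_eq_norm, ← dist_eq_norm, ← (c ^ i).isometry.dist_eq]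
        change dist ((c ^ i * ((c ^ i)⁻¹ * t ^ n)) v) _ = _
        rw [mul_inv_cancel_left, hcv]
      rw [e]
      exact hC n
    have h2 := norm_add_le (((c ^ i)⁻¹ * t ^ n) v - v) v
    rw [sub_add_cancel] at h2
    linarith)
  refine ⟨z, hz a a.isometry (himg a hSa hSa'), hz b b.isometry (himg b hSb hSb'),
    hz t t.isometry (himg t ?_ ?_)⟩
  · intro x hx
    have := hSt 1 x hx
    rwa [zpow_one] at this
  · intro x hx
    have := hSt (-1) x hx
    rwa [zpow_neg_one] at this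

end Pool.Agent.Helper95.FP
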