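import Pool.Agent.Helper95.FP.Schoen
import Pool.Agent.Helper95.FP.FixP
import Pool.Graph.R_seed8.TH461.FGK.Two

set_option autoImplicit false

open MeasureTheory Filter Topology
open scoped ENNReal NNReal

namespace Pool.Agent.Helper95.FP

open Pool.Agent.H635F

lemma re_fourier_one_le (x : UnitAddCircle) : (fourier 1 x : ℂ).re ≤ 1 - 8 * ‖x‖ ^ 2 := by
  induction x using QuotientAddGroup.induction_on with
  | H t =>
    have h1 : ((t : ℝ) : UnitAddCircle) = ((t - round t : ℝ) : UnitAddCircle) := by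
      have h2 : ((round t : ℝ) : UnitAddCircle) = 0 := by
        rw [AddCircle.coe_eq_zero_iff]
        exact ⟨round t, by simp⟩
      rw [AddCircle.coe_sub, h2, sub_zero]
    have h3 : ‖((t : ℝ) : UnitAddCircle)‖ = |t - round t| := UnitAddCircle.norm_eq
    change (fourier 1 ((t : ℝ) : UnitAddCircle) : ℂ).re ≤ 1 - 8 * ‖((t : ℝ) : UnitAddCircle)‖ ^ 2
    rw [h3, h1, fourier_coe_apply]
    set s := t - round t with hs
    have hs2 : |s| ≤ 1 / 2 := abs_sub_round t
    have h5 : (2 * (Real.pi : ℂ) * Complex.I * ((1 : ℤ) : ℂ) * (s : ℂ) / ((1 : ℝ) : ℂ)) =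
        ((2 * (Real.pi * s) : ℝ) : ℂ) * Complex.I := by
      push_cast
      ring
    rw [h5, Complex.exp_ofReal_mul_I_re, Real.cos_two_mul']
    have h6 : Real.sin (Real.pi * s) ^ 2 = Real.sin (Real.pi * |s|) ^ 2 := by
      rcases abs_cases s with ⟨h, -⟩ | ⟨h, -⟩ <;> rw [h]
      rw [mul_neg, Real.sin_neg, neg_sq]
    have h7 : 2 * |s| ≤ Real.sin (Real.pi * |s|) := by
      have h := Real.mul_le_sin (x := Real.pi * |s|) (by positivity)
        (by nlinarith [Real.pi_pos])
      have e : 2 / Real.pi * (Real.pi * |s|) = 2 * |s| := by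
        field_simp
      rwa [e] at h
    have h8 : (2 * |s|) ^ 2 ≤ Real.sin (Real.pi * |s|) ^ 2 :=
      pow_le_pow_left₀ (by positivity) h7 2
    have h9 := Real.sin_sq_add_cos_sq (Real.pi * s)
    rw [← h6] at h8
    nlinarith

lemma re_fourier_ge (n : ℤ) (x : UnitAddCircle) :
    1 - (fourier n x : ℂ).re ≤ 2 * Real.pi * |(n : ℝ)| * ‖x‖ := by
  have h := fourier_sub_one_le n x
  have h2 := (abs_le.1 ((Complex.abs_re_le_norm ((fourier n x : ℂ) - 1)).trans h)).1
  rw [Complex.sub_re, Complex.one_re] at h2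
  linarith

lemma F_re (n : ℤ) (μ : PM) :
    (F n μ).re = ∫ x, (fourier n x : ℂ).re ∂(μ : Measure UnitAddCircle) := by
  unfold F
  have := integral_re (𝕜 := ℂ) (integrable_fourier n (μ : Measure UnitAddCircle))
  exact this.symm

/-- mean distance to zero of a measure invariant under multiplication by `p` -/
lemma mean_le {p : ℕ} (hp : 2 ≤ p) (μ : Measure UnitAddCircle) [IsProbabilityMeasure μ]
    (h : MeasurePreserving (fun x : UnitAddCircle => p • x) μ μ) :
    ∫ x, ‖x‖ ∂μ ≤ μ.real {x : UnitAddCircle | 1 / (2 * (p : ℝ)) ≤ ‖x‖} := by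
  have hp0 : (2 : ℝ) ≤ p := by exact_mod_cast hp
  have hint : Integrable (fun x : UnitAddCircle => ‖x‖) μ :=
    continuous_norm.integrable_of_hasCompactSupport (HasCompactSupport.of_compactSpace _)
  have hmp : ∫ x, ‖p • x‖ ∂μ = ∫ x, ‖x‖ ∂μ := by
    have := h.map_eq
    conv_rhs => rw [← this]
    rw [integral_map h.aemeasurable continuous_norm.aestronglyMeasurable]
  obtain ⟨S, hS⟩ : ∃ S : Set UnitAddCircle, S = {x : UnitAddCircle | 1 / (2 * (p : ℝ)) ≤ ‖x‖} :=
    ⟨_, rfl⟩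
  rw [← hS]
  have hmem : ∀ x, x ∈ S ↔ 1 / (2 * (p : ℝ)) ≤ ‖x‖ := fun x => by rw [hS]; rfl
  have hm : MeasurableSet S := by
    rw [hS]
    exact (isClosed_le continuous_const continuous_norm).measurableSet
  have hpt : ∀ x : UnitAddCircle, ‖x‖ ≤ (1 / (p : ℝ)) * ‖p • x‖ +
      S.indicator (fun _ => (1 / 2 : ℝ)) x := by
    intro x
    by_cases hx : x ∈ S
    · rw [Set.indicator_of_mem hx]
      have h1 : ‖x‖ ≤ 1 / 2 := by
        have := AddCircle.norm_le_half_period (1 : ℝ) (x := x) one_ne_zero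
        simpa using this
      have h2 : 0 ≤ (1 / (p : ℝ)) * ‖p • x‖ := by positivity
      linarith
    · rw [Set.indicator_of_notMem hx, add_zero]
      rw [hmem, not_le] at hx
      have h1 : ‖p • x‖ = p * ‖x‖ := by
        induction x using QuotientAddGroup.induction_on with
        | H t =>
          have h1 : ((t : ℝ) : UnitAddCircle) = ((t - round t : ℝ) : UnitAddCircle) := by
            have h2 : ((round t : ℝ) : UnitAddCircle) = 0 := by
              rw [AddCircle.coe_eq_zero_iff]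
              exact ⟨round t, by simp⟩
            rw [AddCircle.coe_sub, h2, sub_zero]
          have h3 : ‖((t : ℝ) : UnitAddCircle)‖ = |t - round t| := UnitAddCircle.norm_eq
          change ‖p • ((t : ℝ) : UnitAddCircle)‖ = p * ‖((t : ℝ) : UnitAddCircle)‖
          have hx' : ‖((t : ℝ) : UnitAddCircle)‖ < 1 / (2 * (p : ℝ)) := hx
          rw [h3] at hx' ⊢
          rw [h1, ← AddCircle.coe_nsmul]
          rw [(AddCircle.norm_coe_eq_abs_iff (1 : ℝ) one_ne_zero).2]
          · rw [nsmul_eq_mul, abs_mul, Nat.abs_cast]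
          · rw [nsmul_eq_mul, abs_mul, Nat.abs_cast, abs_one]
            have : (p : ℝ) * |t - round t| ≤ p * (1 / (2 * (p : ℝ))) := by gcongr
            have e : (p : ℝ) * (1 / (2 * (p : ℝ))) = 1 / 2 := by field_simp
            linarith
      rw [h1]
      have e : (1 / (p : ℝ)) * (p * ‖x‖) = ‖x‖ := by field_simp
      rw [e]
  have hi1 : Integrable (fun x : UnitAddCircle => (1 / (p : ℝ)) * ‖p • x‖) μ :=
    Integrable.const_mul ((continuous_norm.comp (continuous_nsmul p)).integrable_of_hasCompactSupport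
      (HasCompactSupport.of_compactSpace _)) _
  have hi2 : Integrable (fun x : UnitAddCircle => S.indicator (fun _ => (1 / 2 : ℝ)) x) μ :=
    (integrable_const _).indicator hm
  have h1 : ∫ x, ‖x‖ ∂μ ≤ ∫ x, ((1 / (p : ℝ)) * ‖p • x‖ +
      S.indicator (fun _ => (1 / 2 : ℝ)) x) ∂μ := integral_mono hint (hi1.add hi2) hpt
  rw [integral_add hi1 hi2, integral_const_mul, hmp, integral_indicator_const _ hm,
    smul_eq_mul] at h1
  have h2 : (1 / (p : ℝ)) ≤ 1 / 2 := one_div_le_one_div_of_le (by norm_num) hp0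
  have h3 : 0 ≤ ∫ x, ‖x‖ ∂μ := integral_nonneg fun x => norm_nonneg x
  nlinarith

lemma re_quad (n : ℤ) (x : UnitAddCircle) :
    1 - (fourier n x : ℂ).re ≤ 2 * Real.pi ^ 2 * |(n : ℝ)| ^ 2 * ‖x‖ ^ 2 := by
  have h := fourier_sub_one_le n x
  have h1 : ‖(fourier n x : ℂ) - 1‖ ^ 2 = 2 * (1 - (fourier n x : ℂ).re) := by
    have h2 : ‖(fourier n x : ℂ)‖ ^ 2 = 1 := by rw [norm_fourier, one_pow]
    rw [← Complex.normSq_eq_norm_sq, Complex.normSq_apply] at h2 ⊢
    rw [Complex.sub_re, Complex.sub_im, Complex.one_re, Complex.one_im]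
    nlinarith
  have h3 : ‖(fourier n x : ℂ) - 1‖ ^ 2 ≤ (2 * Real.pi * |(n : ℝ)| * ‖x‖) ^ 2 :=
    pow_le_pow_left₀ (norm_nonneg _) h 2
  rw [h1] at h3
  nlinarith

lemma one_le_log {n : ℤ} (hn : 3 ≤ |n|) : 1 ≤ Real.log |(n : ℝ)| := by
  have h1 : (3 : ℝ) ≤ |(n : ℝ)| := by exact_mod_cast hn
  rw [Real.le_log_iff_exp_le (by linarith)]
  have := Real.exp_one_lt_d9
  linarith

/-- Fourier coefficients of invariant probability measures. -/
theorem harnack {p q : ℕ} (hp : 2 ≤ p) {κ : ℝ} (hκ : 0 < κ)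
    (hNC : Pool.Agent.TH654.FC.NC p q κ) : ∃ C : ℝ, 0 ≤ C ∧ ∀ μ : PM,
      MeasurePreserving (fun x : UnitAddCircle => p • x) (μ : Measure UnitAddCircle) μ →
      MeasurePreserving (fun x : UnitAddCircle => q • x) (μ : Measure UnitAddCircle) μ →
      ∀ n : ℤ, 3 ≤ |n| → 1 - (F n μ).re ≤ C * Real.log |(n : ℝ)| ^ κ * (1 - (F 1 μ).re) := by
  obtain ⟨C0, hC0⟩ := hNC
  have hp0 : (2 : ℝ) ≤ p := by exact_mod_cast hp
  set r : ℝ := 1 / (1 + max (p : ℝ) (q : ℝ)) with hr
  have hr0 : 0 < r := by positivity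
  set s0 : ℝ := Real.log (2 * p) with hs0
  have hs1 : 1 ≤ s0 := by
    rw [hs0, Real.le_log_iff_exp_le (by linarith)]
    have := Real.exp_one_lt_d9
    linarith
  set C1 : ℝ := 2 * |C0| * 2 ^ κ + 2 * Real.pi ^ 2 * |C0| * s0 ^ κ with hC1
  have hC10 : 0 ≤ C1 := by positivity
  refine ⟨C1 / (8 * r ^ 2), by positivity, fun μ h1 h2 n hn => ?_⟩
  have hL := one_le_log hn
  set L := Real.log |(n : ℝ)| with hLdef
  have hn3 : (3 : ℝ) ≤ |(n : ℝ)| := by exact_mod_cast hn
  set M := (μ : Measure UnitAddCircle).real {x : UnitAddCircle | r ≤ ‖x‖} with hM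
  have hM0 : 0 ≤ M := measureReal_nonneg
  have hLk : 1 ≤ L ^ κ := Real.one_le_rpow hL hκ.le
  have hintr : ∀ k : ℤ, Integrable (fun x : UnitAddCircle => (fourier k x : ℂ).re)
      (μ : Measure UnitAddCircle) := fun k => (integrable_fourier k _).re
  have hintn : Integrable (fun x : UnitAddCircle => ‖x‖) (μ : Measure UnitAddCircle) :=
    continuous_norm.integrable_of_hasCompactSupport (HasCompactSupport.of_compactSpace _)
  -- the upper bound
  have hup : 1 - (F n μ).re ≤ C1 * L ^ κ * M := by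
    obtain ⟨S, hS⟩ : ∃ S : Set UnitAddCircle, S = {x : UnitAddCircle | Real.exp (-(2 * L)) ≤ ‖x‖} :=
      ⟨_, rfl⟩
    have hmem : ∀ x, x ∈ S ↔ Real.exp (-(2 * L)) ≤ ‖x‖ := fun x => by rw [hS]; rfl
    have hmS : MeasurableSet S := by
      rw [hS]
      exact (isClosed_le continuous_const continuous_norm).measurableSet
    have hexp : Real.exp (-(2 * L)) * |(n : ℝ)| ^ 2 = 1 := by
      have e : |(n : ℝ)| ^ 2 = Real.exp (2 * L) := by
        rw [two_mul, Real.exp_add, hLdef, Real.exp_log (by linarith), sq]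
      rw [e, ← Real.exp_add, neg_add_cancel, Real.exp_zero]
    have hpt : ∀ x : UnitAddCircle, 1 - (fourier n x : ℂ).re ≤ S.indicator (fun _ => (2 : ℝ)) x +
        2 * Real.pi ^ 2 * ‖x‖ := by
      intro x
      by_cases hx : x ∈ S
      · rw [Set.indicator_of_mem hx]
        have h3 := (abs_le.1 ((Complex.abs_re_le_norm (fourier n x : ℂ)).trans
          (norm_fourier n x).le)).1
        have : 0 ≤ 2 * Real.pi ^ 2 * ‖x‖ := by positivity
        linarith
      · rw [Set.indicator_of_notMem hx, zero_add]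
        rw [hmem, not_le] at hx
        refine (re_quad n x).trans ?_
        have h3 : |(n : ℝ)| ^ 2 * ‖x‖ ≤ 1 := by
          calc |(n : ℝ)| ^ 2 * ‖x‖ ≤ |(n : ℝ)| ^ 2 * Real.exp (-(2 * L)) := by gcongr
            _ = 1 := by rw [mul_comm]; exact hexp
        calc 2 * Real.pi ^ 2 * |(n : ℝ)| ^ 2 * ‖x‖ ^ 2
            = 2 * Real.pi ^ 2 * ‖x‖ * (|(n : ℝ)| ^ 2 * ‖x‖) := by ring
          _ ≤ 2 * Real.pi ^ 2 * ‖x‖ * 1 := by gcongr
          _ = _ := mul_one _
    have hi1 : Integrable (fun x => 1 - (fourier n x : ℂ).re) (μ : Measure UnitAddCircle) :=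
      (integrable_const _).sub (hintr n)
    have hi2 : Integrable (fun x => S.indicator (fun _ => (2 : ℝ)) x) (μ : Measure UnitAddCircle) :=
      (integrable_const _).indicator hmS
    have hi3 : Integrable (fun x : UnitAddCircle => 2 * Real.pi ^ 2 * ‖x‖)
      (μ : Measure UnitAddCircle) := hintn.const_mul _
    have h3 : ∫ x, (1 - (fourier n x : ℂ).re) ∂(μ : Measure UnitAddCircle) ≤
        ∫ x, (S.indicator (fun _ => (2 : ℝ)) x + 2 * Real.pi ^ 2 * ‖x‖)
          ∂(μ : Measure UnitAddCircle) := integral_mono hi1 (hi2.add hi3) hpt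
    rw [integral_add hi2 hi3, integral_const_mul, integral_indicator_const _ hmS, smul_eq_mul,
      integral_sub (integrable_const _) (hintr n), ← F_re, integral_const, probReal_univ,
      one_smul] at h3
    have h4 : (μ : Measure UnitAddCircle).real S ≤ |C0| * (2 * L) ^ κ * M := by
      have h := hC0 (μ : Measure UnitAddCircle) inferInstance h1 h2 (2 * L) (by linarith)
      rw [hS]
      refine h.trans ?_
      gcongr
      exact le_abs_self _
    have h5 : (μ : Measure UnitAddCircle).real {x : UnitAddCircle | 1 / (2 * (p : ℝ)) ≤ ‖x‖} ≤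
        |C0| * s0 ^ κ * M := by
      have h := hC0 (μ : Measure UnitAddCircle) inferInstance h1 h2 s0 hs1
      have e : Real.exp (-s0) = 1 / (2 * (p : ℝ)) := by
        rw [Real.exp_neg, hs0, Real.exp_log (by linarith), one_div]
      rw [e] at h
      refine h.trans ?_
      gcongr
      exact le_abs_self _
    have h6 := mean_le hp (μ : Measure UnitAddCircle) h1
    have h7 : (2 * L) ^ κ = 2 ^ κ * L ^ κ := Real.mul_rpow (by norm_num) (by linarith)
    rw [h7] at h4
    have h8 : 2 * Real.pi ^ 2 * ∫ x, ‖x‖ ∂(μ : Measure UnitAddCircle) ≤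
        2 * Real.pi ^ 2 * (|C0| * s0 ^ κ * M) := by
      gcongr
      exact h6.trans h5
    have h9 : 2 * Real.pi ^ 2 * (|C0| * s0 ^ κ * M) ≤
        2 * Real.pi ^ 2 * (|C0| * s0 ^ κ * M) * L ^ κ :=
      le_mul_of_one_le_right (by positivity) hLk
    calc 1 - (F n μ).re ≤ (μ : Measure UnitAddCircle).real S * 2 +
          2 * Real.pi ^ 2 * ∫ x, ‖x‖ ∂(μ : Measure UnitAddCircle) := h3
      _ ≤ |C0| * (2 ^ κ * L ^ κ) * M * 2 + 2 * Real.pi ^ 2 * (|C0| * s0 ^ κ * M) * L ^ κ :=
        add_le_add (mul_le_mul_of_nonneg_right h4 (by norm_num)) (h8.trans h9)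
      _ = C1 * L ^ κ * M := by rw [hC1]; ring
  -- the lower bound
  have hlow : 8 * r ^ 2 * M ≤ 1 - (F 1 μ).re := by
    obtain ⟨S, hS⟩ : ∃ S : Set UnitAddCircle, S = {x : UnitAddCircle | r ≤ ‖x‖} := ⟨_, rfl⟩
    have hmem : ∀ x, x ∈ S ↔ r ≤ ‖x‖ := fun x => by rw [hS]; rfl
    have hmS : MeasurableSet S := by
      rw [hS]
      exact (isClosed_le continuous_const continuous_norm).measurableSet
    have hpt : ∀ x : UnitAddCircle, S.indicator (fun _ => 8 * r ^ 2) x ≤
        1 - (fourier 1 x : ℂ).re := by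
      intro x
      have h3 := re_fourier_one_le x
      by_cases hx : x ∈ S
      · rw [Set.indicator_of_mem hx]
        rw [hmem] at hx
        have : r ^ 2 ≤ ‖x‖ ^ 2 := pow_le_pow_left₀ hr0.le hx 2
        linarith
      · rw [Set.indicator_of_notMem hx]
        have : 0 ≤ ‖x‖ ^ 2 := by positivity
        linarith
    have h3 : ∫ x, S.indicator (fun _ => 8 * r ^ 2) x ∂(μ : Measure UnitAddCircle) ≤
        ∫ x, (1 - (fourier 1 x : ℂ).re) ∂(μ : Measure UnitAddCircle) :=
      integral_mono ((integrable_const _).indicator hmS)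
        ((integrable_const _).sub (hintr 1)) hpt
    rw [integral_indicator_const _ hmS, smul_eq_mul, integral_sub (integrable_const _) (hintr 1),
      ← F_re, integral_const, probReal_univ, one_smul, hS] at h3
    linarith
  calc 1 - (F n μ).re ≤ C1 * L ^ κ * M := hup
    _ = C1 / (8 * r ^ 2) * L ^ κ * (8 * r ^ 2 * M) := by field_simp
    _ ≤ _ := by gcongr

/-- Growth of the translation invariant Hilbert metrics on the integers which are invariant under
multiplication by `p` and by `q`. -/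
theorem grow {p q : ℕ} (hp : 2 ≤ p) {κ : ℝ} (hκ : 0 < κ)
    (hNC : Pool.Agent.TH654.FC.NC p q κ) : ∃ C : ℝ, 0 ≤ C ∧
      ∀ (H : Type*) [NormedAddCommGroup H] [InnerProductSpace ℝ H] (u : ℤ → H) (f : ℤ → ℝ),
      (∀ m n, ‖u m - u n‖ = f (m - n)) → (∀ n, f (p * n) = f n ∧ f (q * n) = f n) →
      ∀ n : ℤ, 3 ≤ |n| → f n ^ 2 ≤ C * Real.log |(n : ℝ)| ^ κ * f 1 ^ 2 := by
  obtain ⟨C, hC, h⟩ := harnack (q := q) hp hκ hNC
  refine ⟨2 * C, by positivity, fun H _ _ u f hf hpq n hn => ?_⟩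
  have hL := one_le_log hn
  have hLk : 1 ≤ Real.log |(n : ℝ)| ^ κ := Real.one_le_rpow hL hκ.le
  rcases eq_or_ne (f n) 0 with h0 | h0
  · rw [h0, zero_pow two_ne_zero]
    positivity
  have hA : 0 < f n ^ 2 := by positivity
  obtain ⟨μ, hμ⟩ := exists_meas u f hf (1 / f n ^ 2) (by positivity)
  have hinv : ∀ m : ℕ, (∀ k, f (m * k) = f k) →
      MeasurePreserving (fun x : UnitAddCircle => m • x) (μ : Measure UnitAddCircle) μ := by
    intro m hm
    refine ⟨(continuous_nsmul m).measurable, ?_⟩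
    have : push m μ = μ := by
      apply ProbabilityMeasure.toMeasure_injective
      refine ext_fourier _ _ fun k => ?_
      change F k (push m μ) = F k μ
      rw [F_push', hμ, hμ, mul_comm k, hm]
    exact congrArg ProbabilityMeasure.toMeasure this
  have h1 := h μ (hinv p fun k => (hpq k).1) (hinv q fun k => (hpq k).2) n hn
  rw [hμ, hμ, Complex.ofReal_re, Complex.ofReal_re] at h1
  have e : -(1 / f n ^ 2 * f n ^ 2) = -1 := by field_simp
  rw [e] at h1
  have h2 := Real.exp_neg_one_lt_half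
  have h3 := Real.add_one_le_exp (-(1 / f n ^ 2 * f 1 ^ 2))
  have h4 : 1 / 2 ≤ C * Real.log |(n : ℝ)| ^ κ * (1 / f n ^ 2 * f 1 ^ 2) := by
    calc (1 / 2 : ℝ) ≤ 1 - Real.exp (-1) := by linarith
      _ ≤ _ := h1
      _ ≤ C * Real.log |(n : ℝ)| ^ κ * (1 / f n ^ 2 * f 1 ^ 2) := by
        gcongr
        linarith
  have h5 : f n ^ 2 * (1 / 2) ≤ f n ^ 2 * (C * Real.log |(n : ℝ)| ^ κ * (1 / f n ^ 2 * f 1 ^ 2)) :=
    mul_le_mul_of_nonneg_left h4 hA.le
  have e2 : f n ^ 2 * (C * Real.log |(n : ℝ)| ^ κ * (1 / f n ^ 2 * f 1 ^ 2)) =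
      C * Real.log |(n : ℝ)| ^ κ * f 1 ^ 2 := by field_simp
  rw [e2] at h5
  linarith

end Pool.Agent.Helper95.FP
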