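import Pool.Graph.R_pool_sql_team_seeded_b3bd081e.H635F.Fin

set_option autoImplicit false

open MeasureTheory Filter Topology
open scoped ENNReal NNReal ComplexConjugate

namespace Pool.Agent.Helper95.FP

open Pool.Agent.H635F

/-- The Fejer means of an even positive definite function on the integers. -/
noncomputable def fej (a : ℤ → ℝ) (N : ℕ) (x : UnitAddCircle) : ℝ :=
  (N : ℝ)⁻¹ * ∑ m ∈ Finset.range N, ∑ n ∈ Finset.range N,
    a ((m : ℤ) - n) * ((fourier (m : ℤ) x : ℂ).re * (fourier (n : ℤ) x : ℂ).re +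
      (fourier (m : ℤ) x : ℂ).im * (fourier (n : ℤ) x : ℂ).im)

lemma fej_nonneg (a : ℤ → ℝ)
    (hpd : ∀ (N : ℕ) (y : ℕ → ℝ), 0 ≤ ∑ m ∈ Finset.range N, ∑ n ∈ Finset.range N,
      a ((m : ℤ) - n) * (y m * y n)) (N : ℕ) (x : UnitAddCircle) : 0 ≤ fej a N x := by
  unfold fej
  refine mul_nonneg (by positivity) ?_
  have h1 := hpd N (fun m => (fourier (m : ℤ) x : ℂ).re)
  have h2 := hpd N (fun m => (fourier (m : ℤ) x : ℂ).im)
  have e : ∑ m ∈ Finset.range N, ∑ n ∈ Finset.range N,
      a ((m : ℤ) - n) * ((fourier (m : ℤ) x : ℂ).re * (fourier (n : ℤ) x : ℂ).re +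
      (fourier (m : ℤ) x : ℂ).im * (fourier (n : ℤ) x : ℂ).im) =
      ∑ m ∈ Finset.range N, ∑ n ∈ Finset.range N,
      a ((m : ℤ) - n) * ((fourier (m : ℤ) x : ℂ).re * (fourier (n : ℤ) x : ℂ).re) +
      ∑ m ∈ Finset.range N, ∑ n ∈ Finset.range N,
      a ((m : ℤ) - n) * ((fourier (m : ℤ) x : ℂ).im * (fourier (n : ℤ) x : ℂ).im) := by
    rw [← Finset.sum_add_distrib]
    refine Finset.sum_congr rfl fun m _ => ?_
    rw [← Finset.sum_add_distrib]
    exact Finset.sum_congr rfl fun n _ => by ring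
  rw [e]
  exact add_nonneg h1 h2

lemma continuous_fej (a : ℤ → ℝ) (N : ℕ) : Continuous (fej a N) := by
  unfold fej
  have h : ∀ m : ℤ, Continuous fun x : UnitAddCircle => (fourier m x : ℂ) := fun m =>
    (fourier m).continuous
  have hr : ∀ m : ℤ, Continuous fun x : UnitAddCircle => (fourier m x : ℂ).re := fun m =>
    Complex.continuous_re.comp (h m)
  have hi : ∀ m : ℤ, Continuous fun x : UnitAddCircle => (fourier m x : ℂ).im := fun m =>
    Complex.continuous_im.comp (h m)
  refine continuous_const.mul ?_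
  refine continuous_finsetSum _ fun m _ => continuous_finsetSum _ fun n _ => ?_
  exact continuous_const.mul (((hr m).mul (hr n)).add ((hi m).mul (hi n)))

lemma re_mul_re (m n : ℤ) (x : UnitAddCircle) :
    (((fourier m x : ℂ).re * (fourier n x : ℂ).re + (fourier m x : ℂ).im * (fourier n x : ℂ).im : ℝ)
      : ℂ) = ((fourier (m - n) x : ℂ) + (fourier (n - m) x : ℂ)) / 2 := by
  have h1 : (fourier (m - n) x : ℂ) = (fourier m x : ℂ) * conj (fourier n x : ℂ) := by
    rw [sub_eq_add_neg, fourier_add, fourier_neg]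
  have h2 : (fourier (n - m) x : ℂ) = (fourier n x : ℂ) * conj (fourier m x : ℂ) := by
    rw [sub_eq_add_neg, fourier_add, fourier_neg]
  rw [h1, h2]
  apply Complex.ext
  · simp
    ring
  · simp
    ring

lemma integral_fourier (j : ℤ) : ∫ x : UnitAddCircle, (fourier j x : ℂ) = if j = 0 then 1 else 0 := by
  have hpv : IsProbabilityMeasure (volume : Measure UnitAddCircle) :=
    ⟨UnitAddCircle.measure_univ⟩
  split_ifs with h
  · subst h
    simp
  · exact F_volume j h

lemma coeff_fej (a : ℤ → ℝ) (hev : ∀ k, a (-k) = a k) (N : ℕ) (k : ℤ) :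
    ∫ x : UnitAddCircle, (fourier k x : ℂ) * ((fej a N x : ℝ) : ℂ) =
      (((N : ℝ)⁻¹ * (((Finset.range N).filter fun n : ℕ => 0 ≤ (n : ℤ) + k ∧ (n : ℤ) + k < N).card : ℝ) * a k : ℝ) : ℂ) := by
  have hint : ∀ (g : C(UnitAddCircle, ℂ)), Integrable (fun x => g x) (volume : Measure UnitAddCircle) :=
    fun g => g.continuous.integrable_of_hasCompactSupport (HasCompactSupport.of_compactSpace _)
  have e1 : ∀ x : UnitAddCircle, (fourier k x : ℂ) * ((fej a N x : ℝ) : ℂ) =
      ∑ m ∈ Finset.range N, ∑ n ∈ Finset.range N, (((N : ℝ)⁻¹ * a ((m : ℤ) - n) / 2 : ℝ) : ℂ) *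
        ((fourier (k + (m - n)) x : ℂ) + (fourier (k + (n - m)) x : ℂ)) := by
    intro x
    unfold fej
    push_cast
    rw [Finset.mul_sum, Finset.mul_sum]
    refine Finset.sum_congr rfl fun m _ => ?_
    rw [Finset.mul_sum, Finset.mul_sum]
    refine Finset.sum_congr rfl fun n _ => ?_
    have h := re_mul_re m n x
    push_cast at h
    rw [h, fourier_add, fourier_add]
    ring
  have hterm : ∀ m n : ℕ, Integrable (fun x : UnitAddCircle => (((N : ℝ)⁻¹ * a ((m : ℤ) - n) / 2 : ℝ) : ℂ) *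
        ((fourier (k + (m - n)) x : ℂ) + (fourier (k + (n - m)) x : ℂ))) volume := fun m n =>
    ((hint (fourier (k + (m - n)))).add (hint (fourier (k + (n - m))))).const_mul _
  simp_rw [e1]
  rw [integral_finsetSum _ fun m _ => integrable_finsetSum _ fun n _ => hterm m n]
  have e2 : ∀ m ∈ Finset.range N, ∫ x : UnitAddCircle, ∑ n ∈ Finset.range N, (((N : ℝ)⁻¹ * a ((m : ℤ) - n) / 2 : ℝ) : ℂ) *
        ((fourier (k + (m - n)) x : ℂ) + (fourier (k + (n - m)) x : ℂ)) =
      ∑ n ∈ Finset.range N, (((N : ℝ)⁻¹ * a k / 2 : ℝ) : ℂ) *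
        ((if (n : ℤ) = m + k then 1 else 0) + (if (m : ℤ) = n + k then 1 else 0)) := by
    intro m _
    rw [integral_finsetSum _ fun n _ => hterm m n]
    refine Finset.sum_congr rfl fun n _ => ?_
    rw [integral_const_mul, integral_add (hint (fourier (k + (m - n)))) (hint (fourier (k + (n - m)))),
      integral_fourier, integral_fourier]
    have c1 : (k + ((m : ℤ) - n) = 0) ↔ (n : ℤ) = m + k := by constructor <;> intro h <;> linarith
    have c2 : (k + ((n : ℤ) - m) = 0) ↔ (m : ℤ) = n + k := by constructor <;> intro h <;> linarith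
    simp only [c1, c2]
    by_cases h1 : (n : ℤ) = m + k
    · have : a ((m : ℤ) - n) = a k := by
        rw [h1, ← hev k]; congr 1; ring
      rw [this]
    · by_cases h2 : (m : ℤ) = n + k
      · have : a ((m : ℤ) - n) = a k := by
          rw [h2]; congr 1; ring
        rw [this]
      · simp [h1, h2]
  rw [Finset.sum_congr rfl e2]
  have c : ∑ m ∈ Finset.range N, ∑ n ∈ Finset.range N, (if (m : ℤ) = n + k then (1 : ℂ) else 0) =
      (((Finset.range N).filter fun n : ℕ => 0 ≤ (n : ℤ) + k ∧ (n : ℤ) + k < N).card : ℂ) := by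
    rw [Finset.sum_comm, Finset.card_filter]
    push_cast
    refine Finset.sum_congr rfl fun n _ => ?_
    split_ifs with h
    · obtain ⟨h1, h2⟩ := h
      rw [Finset.sum_eq_single ((n : ℤ) + k).toNat]
      · rw [if_pos]
        exact Int.toNat_of_nonneg h1
      · intro b _ hb
        rw [if_neg]
        intro h
        apply hb
        omega
      · intro h
        exfalso
        apply h
        rw [Finset.mem_range]
        omega
    · refine Finset.sum_eq_zero fun m hm => ?_
      rw [if_neg]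
      intro h'
      apply h
      rw [Finset.mem_range] at hm
      omega
  have c' : ∑ m ∈ Finset.range N, ∑ n ∈ Finset.range N, (if (n : ℤ) = m + k then (1 : ℂ) else 0) =
      (((Finset.range N).filter fun n : ℕ => 0 ≤ (n : ℤ) + k ∧ (n : ℤ) + k < N).card : ℂ) := by
    rw [Finset.sum_comm]
    exact c
  have e3 : ∑ m ∈ Finset.range N, ∑ n ∈ Finset.range N, (((N : ℝ)⁻¹ * a k / 2 : ℝ) : ℂ) *
        ((if (n : ℤ) = m + k then 1 else 0) + (if (m : ℤ) = n + k then 1 else 0)) =
      (((N : ℝ)⁻¹ * a k / 2 : ℝ) : ℂ) * (∑ m ∈ Finset.range N, ∑ n ∈ Finset.range N,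
        (if (n : ℤ) = m + k then (1 : ℂ) else 0) + ∑ m ∈ Finset.range N, ∑ n ∈ Finset.range N,
        (if (m : ℤ) = n + k then (1 : ℂ) else 0)) := by
    rw [mul_add, Finset.mul_sum, Finset.mul_sum, ← Finset.sum_add_distrib]
    refine Finset.sum_congr rfl fun m _ => ?_
    rw [Finset.mul_sum, Finset.mul_sum, ← Finset.sum_add_distrib]
    exact Finset.sum_congr rfl fun n _ => by ring
  rw [e3, c, c']
  push_cast
  ring

lemma card_bound (N : ℕ) (k : ℤ) : (N : ℝ) - 2 * |(k : ℝ)| ≤
    (((Finset.range N).filter fun n : ℕ => 0 ≤ (n : ℤ) + k ∧ (n : ℤ) + k < N).card : ℝ) ∧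
    (((Finset.range N).filter fun n : ℕ => 0 ≤ (n : ℤ) + k ∧ (n : ℤ) + k < N).card : ℝ) ≤ N := by
  constructor
  · have hsub : Finset.Ico k.natAbs (N - k.natAbs) ⊆
        (Finset.range N).filter fun n : ℕ => 0 ≤ (n : ℤ) + k ∧ (n : ℤ) + k < N := by
      intro n hn
      rw [Finset.mem_Ico] at hn
      rw [Finset.mem_filter, Finset.mem_range]
      omega
    have h := Finset.card_le_card hsub
    rw [Nat.card_Ico] at h
    have h2 : (N : ℤ) - 2 * |k| ≤ (((Finset.range N).filter fun n : ℕ => 0 ≤ (n : ℤ) + k ∧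
        (n : ℤ) + k < N).card : ℤ) := by
      have h3 : |k| = (k.natAbs : ℤ) := (Int.natCast_natAbs k).symm
      rw [h3]
      omega
    exact_mod_cast h2
  · have h := Finset.card_filter_le (Finset.range N) (fun n : ℕ => 0 ≤ (n : ℤ) + k ∧ (n : ℤ) + k < N)
    rw [Finset.card_range] at h
    exact_mod_cast h

lemma tendsto_card (k : ℤ) : Tendsto (fun N : ℕ => (N : ℝ)⁻¹ *
    (((Finset.range N).filter fun n : ℕ => 0 ≤ (n : ℤ) + k ∧ (n : ℤ) + k < N).card : ℝ))
    atTop (𝓝 1) := by
  have h1 : Tendsto (fun N : ℕ => 1 - 2 * |(k : ℝ)| * (N : ℝ)⁻¹) atTop (𝓝 1) := by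
    have h := tendsto_inv_atTop_nhds_zero_nat (𝕜 := ℝ)
    have h' := (tendsto_const_nhds (x := (1 : ℝ))).sub (h.const_mul (2 * |(k : ℝ)|))
    simpa using h'
  refine tendsto_of_tendsto_of_tendsto_of_le_of_le' h1 tendsto_const_nhds ?_ ?_
  · filter_upwards [eventually_gt_atTop 0] with N hN
    have hN' : (0 : ℝ) < N := by exact_mod_cast hN
    have h := (card_bound N k).1
    calc 1 - 2 * |(k : ℝ)| * (N : ℝ)⁻¹ = (N : ℝ)⁻¹ * (N - 2 * |(k : ℝ)|) := by
          field_simp
      _ ≤ _ := mul_le_mul_of_nonneg_left h (by positivity)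
  · filter_upwards [eventually_gt_atTop 0] with N hN
    have hN' : (0 : ℝ) < N := by exact_mod_cast hN
    have h := (card_bound N k).2
    calc _ ≤ (N : ℝ)⁻¹ * N := mul_le_mul_of_nonneg_left h (by positivity)
      _ = 1 := by field_simp

/-- **Herglotz.**  A positive definite even real function on the integers with value one at zero
is the sequence of Fourier coefficients of a probability measure. -/
theorem herglotz (a : ℤ → ℝ) (h0 : a 0 = 1) (hev : ∀ k, a (-k) = a k)
    (hpd : ∀ (N : ℕ) (y : ℕ → ℝ), 0 ≤ ∑ m ∈ Finset.range N, ∑ n ∈ Finset.range N,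
      a ((m : ℤ) - n) * (y m * y n)) : ∃ μ : PM, ∀ k : ℤ, F k μ = (a k : ℂ) := by
  have hint : ∀ N, Integrable (fej a N) (volume : Measure UnitAddCircle) := fun N =>
    (continuous_fej a N).integrable_of_hasCompactSupport (HasCompactSupport.of_compactSpace _)
  have hcard0 : ∀ N : ℕ, 1 ≤ N → (N : ℝ)⁻¹ *
    (((Finset.range N).filter fun n : ℕ => 0 ≤ (n : ℤ) + 0 ∧ (n : ℤ) + 0 < N).card : ℝ) = 1 := by
    intro N hN
    have : ((Finset.range N).filter fun n : ℕ => 0 ≤ (n : ℤ) + 0 ∧ (n : ℤ) + 0 < N) =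
        Finset.range N := by
      refine Finset.filter_true_of_mem fun n hn => ?_
      rw [Finset.mem_range] at hn
      omega
    rw [this, Finset.card_range]
    have : (0 : ℝ) < N := by exact_mod_cast hN
    field_simp
  have hone : ∀ N : ℕ, 1 ≤ N → ∫ x : UnitAddCircle, fej a N x = 1 := by
    intro N hN
    have h := coeff_fej a hev N 0
    rw [hcard0 N hN, h0] at h
    simp only [fourier_zero, one_mul] at h
    rw [integral_complex_ofReal] at h
    exact_mod_cast h
  have hprob : ∀ N : ℕ, IsProbabilityMeasure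
      ((volume : Measure UnitAddCircle).withDensity fun x => ENNReal.ofReal (fej a (N + 1) x)) := by
    intro N
    refine ⟨?_⟩
    rw [withDensity_apply _ MeasurableSet.univ, Measure.restrict_univ,
      ← ofReal_integral_eq_lintegral_ofReal (hint _) (Eventually.of_forall fun x =>
        fej_nonneg a hpd _ x), hone _ (by omega), ENNReal.ofReal_one]
  let s : ℕ → PM := fun N => ⟨_, hprob N⟩
  have hs : ∀ (N : ℕ) (k : ℤ), F k (s N) = (((((N + 1 : ℕ) : ℝ)⁻¹ *
      (((Finset.range (N + 1)).filter fun n : ℕ => 0 ≤ (n : ℤ) + k ∧ (n : ℤ) + k < ((N + 1 : ℕ) : ℤ)).card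
        : ℝ) * a k : ℝ)) : ℂ) := by
    intro N k
    rw [← coeff_fej a hev (N + 1) k]
    change ∫ x, (fourier k x : ℂ) ∂((volume : Measure UnitAddCircle).withDensity fun x =>
      ENNReal.ofReal (fej a (N + 1) x)) = _
    have hm : Measurable fun x : UnitAddCircle => ENNReal.ofReal (fej a (N + 1) x) :=
      ENNReal.measurable_ofReal.comp (continuous_fej a _).measurable
    rw [integral_withDensity_eq_integral_toReal_smul hm
      (Eventually.of_forall fun x => ENNReal.ofReal_lt_top)]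
    refine integral_congr_ae (Eventually.of_forall fun x => ?_)
    simp only
    rw [ENNReal.toReal_ofReal (fej_nonneg a hpd _ x), Complex.real_smul, mul_comm]
  obtain ⟨μ, hμ⟩ := exists_ulim s (hyperfilter ℕ)
  refine ⟨μ, fun k => ?_⟩
  have h1 : Tendsto (fun N => F k (s N)) (hyperfilter ℕ) (𝓝 (F k μ)) :=
    ((continuous_F k).tendsto μ).comp hμ
  have h2 : Tendsto (fun N => F k (s N)) atTop (𝓝 (a k : ℂ)) := by
    simp_rw [hs]
    have h3 := ((tendsto_card k).comp (tendsto_add_atTop_nat 1)).mul_const (a k)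
    rw [one_mul] at h3
    exact (Complex.continuous_ofReal.tendsto _).comp h3
  exact tendsto_nhds_unique h1 (h2.mono_left (Nat.hyperfilter_le_atTop))

end Pool.Agent.Helper95.FP
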