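import Pool.Agent.Helper95.FP.Cond

set_option autoImplicit false

open MeasureTheory Filter Topology
open scoped ENNReal NNReal

namespace Pool.Agent.Helper95.FP

open Pool.Agent.H635F

/-- A `σ`-finite measure with the properties used below. -/
structure Lev (P : Measure UnitAddCircle) : Prop where
  mp2 : MeasurePreserving (fun x : UnitAddCircle => 2 • x) P P
  mp3 : MeasurePreserving (fun x : UnitAddCircle => 3 • x) P P
  zero : P {0} = 0
  fin : Integrable (fun x : UnitAddCircle => ‖x‖) P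
  inf : P Set.univ = ⊤

lemma sum_mp (m : ℕ) (s : ℕ → Measure UnitAddCircle)
    (h : ∀ n, MeasurePreserving (fun x : UnitAddCircle => m • x) (s n) (s n)) :
    MeasurePreserving (fun x : UnitAddCircle => m • x) (Measure.sum s) (Measure.sum s) := by
  refine ⟨(continuous_nsmul m).measurable, ?_⟩
  rw [Measure.map_sum (continuous_nsmul m).measurable.aemeasurable]
  congr 1
  funext n
  exact (h n).map_eq

theorem exists_lev (H : NoGap) : ∃ P : Measure UnitAddCircle, Lev P := by
  have hp : ∀ n : ℕ, (2⁻¹ : ℝ≥0∞) ^ n ≠ 0 := fun n => pow_ne_zero _ (by simp)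
  choose s hinv h0 hJ using fun n : ℕ => H (2⁻¹ ^ n) (hp n)
  refine ⟨Measure.sum fun n => (s n : Measure UnitAddCircle), ?_, ?_, ?_, ?_, ?_⟩
  · exact sum_mp 2 _ fun n => ((inv_iff _).1 (hinv n)).1
  · exact sum_mp 3 _ fun n => ((inv_iff _).1 (hinv n)).2
  · rw [Measure.sum_apply _ (measurableSet_singleton _)]
    simp [h0]
  · refine ⟨continuous_norm.aestronglyMeasurable, ?_⟩
    unfold HasFiniteIntegral
    rw [lintegral_sum_measure]
    have e : ∀ n, ∫⁻ x : UnitAddCircle, ‖‖x‖‖ₑ ∂(s n : Measure UnitAddCircle) = J (s n) := by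
      intro n
      unfold J
      refine lintegral_congr fun x => ?_
      rw [enorm_norm]
      rfl
    simp_rw [e]
    calc ∑' n, J (s n) ≤ ∑' n : ℕ, (2⁻¹ : ℝ≥0∞) ^ n := ENNReal.tsum_le_tsum hJ
      _ < ⊤ := by
        rw [ENNReal.tsum_geometric]
        simp
  · rw [Measure.sum_apply _ MeasurableSet.univ]
    simp only [measure_univ]
    exact ENNReal.tsum_const_eq_top_of_ne_zero one_ne_zero

/-- The characters. -/
noncomputable def E (k : ℤ) (x : UnitAddCircle) : ℂ := fourier k x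

lemma E_add (k l : ℤ) (x : UnitAddCircle) : E (k + l) x = E k x * E l x := fourier_add

lemma E_zero (x : UnitAddCircle) : E 0 x = 1 := fourier_zero

lemma norm_E (k : ℤ) (x : UnitAddCircle) : ‖E k x‖ = 1 := norm_fourier k x

lemma continuous_E (k : ℤ) : Continuous (E k) := (fourier k).continuous

lemma E_nsmul (k : ℤ) (m : ℕ) (x : UnitAddCircle) : E k (m • x) = E (m * k) x := by
  unfold E
  simp [fourier_apply, mul_comm (m : ℤ) k, mul_smul]

variable {P : Measure UnitAddCircle}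

lemma memLp_E (hP : Lev P) (k : ℤ) : MemLp (fun x => E k x - 1) 2 P := by
  have hm : AEStronglyMeasurable (fun x => E k x - 1) P :=
    ((continuous_E k).sub continuous_const).aestronglyMeasurable
  rw [memLp_two_iff_integrable_sq_norm hm]
  refine Integrable.mono' (hP.fin.const_mul (2 * (2 * Real.pi * |(k : ℝ)|))) (hm.norm.pow 2)
    (Eventually.of_forall fun x => ?_)
  have h1 : ‖E k x - 1‖ ≤ 2 * Real.pi * |(k : ℝ)| * ‖x‖ := fourier_sub_one_le k x
  have h2 : ‖E k x - 1‖ ≤ 2 := by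
    have := norm_sub_le (E k x) 1
    rw [norm_E, norm_one] at this
    linarith
  rw [Real.norm_of_nonneg (by positivity)]
  have h3 := norm_nonneg (E k x - 1)
  have h4 : 0 ≤ 2 * Real.pi * |(k : ℝ)| * ‖x‖ := by positivity
  calc ‖E k x - 1‖ ^ 2 = ‖E k x - 1‖ * ‖E k x - 1‖ := sq _
    _ ≤ 2 * (2 * Real.pi * |(k : ℝ)| * ‖x‖) := mul_le_mul h2 h1 h3 (by norm_num)
    _ = _ := by ring

lemma memLp_mul (k : ℤ) (f : Lp ℂ 2 P) : MemLp (fun x => E k x * f x) 2 P := by
  refine (Lp.memLp f).of_le ((continuous_E k).aestronglyMeasurable.mul (Lp.aestronglyMeasurable f))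
    (Eventually.of_forall fun x => ?_)
  rw [norm_mul, norm_E, one_mul]

/-- The affine isometries `f ↦ e(k x) f + (e(k x) - 1)`. -/
noncomputable def T (hP : Lev P) (k : ℤ) (f : Lp ℂ 2 P) : Lp ℂ 2 P :=
  MemLp.toLp (fun x => E k x * f x + (E k x - 1)) ((memLp_mul k f).add (memLp_E hP k))

lemma T_coe (hP : Lev P) (k : ℤ) (f : Lp ℂ 2 P) :
    ∀ᵐ x ∂P, T hP k f x = E k x * f x + (E k x - 1) := MemLp.coeFn_toLp _

lemma T_add (hP : Lev P) (k l : ℤ) (f : Lp ℂ 2 P) : T hP k (T hP l f) = T hP (k + l) f := by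
  apply Lp.ext
  filter_upwards [T_coe hP k (T hP l f), T_coe hP l f, T_coe hP (k + l) f] with x h1 h2 h3
  rw [h1, h2, h3, E_add]
  ring

lemma T_zero (hP : Lev P) (f : Lp ℂ 2 P) : T hP 0 f = f := by
  apply Lp.ext
  filter_upwards [T_coe hP 0 f] with x h1
  rw [h1, E_zero]
  ring

lemma T_isom (hP : Lev P) (k : ℤ) : Isometry (T hP k) := by
  refine Isometry.of_dist_eq fun f g => ?_
  rw [dist_eq_norm, dist_eq_norm, Lp.norm_def, Lp.norm_def]
  congr 1
  refine eLpNorm_congr_norm_ae ?_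
  filter_upwards [T_coe hP k f, T_coe hP k g, Lp.coeFn_sub (T hP k f) (T hP k g),
    Lp.coeFn_sub f g] with x h1 h2 h3 h4
  rw [h3, h4, Pi.sub_apply, Pi.sub_apply, h1, h2]
  have e : E k x * f x + (E k x - 1) - (E k x * g x + (E k x - 1)) = E k x * (f x - g x) := by ring
  rw [e, norm_mul, norm_E, one_mul]

/-- The generator of the action of the integers. -/
noncomputable def Tt (hP : Lev P) : Lp ℂ 2 P ≃ᵢ Lp ℂ 2 P where
  toFun := T hP 1
  invFun := T hP (-1)
  left_inv f := by rw [T_add, neg_add_cancel, T_zero]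
  right_inv f := by rw [T_add, add_neg_cancel, T_zero]
  isometry_toFun := T_isom hP 1

lemma comp_T (hP : Lev P) (m : ℕ) (hm : MeasurePreserving (fun x : UnitAddCircle => m • x) P P)
    (k : ℤ) (f : Lp ℂ 2 P) :
    Lp.compMeasurePreservingₗᵢ ℝ _ hm (T hP k f) =
      T hP (m * k) (Lp.compMeasurePreservingₗᵢ ℝ _ hm f) := by
  apply Lp.ext
  have h1 := Lp.coeFn_compMeasurePreserving (T hP k f) hm
  have h2 := Lp.coeFn_compMeasurePreserving f hm
  have h3 := hm.quasiMeasurePreserving.ae (T_coe hP k f)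
  have h4 := T_coe hP (m * k) (Lp.compMeasurePreservingₗᵢ ℝ _ hm f)
  filter_upwards [h1, h2, h3, h4] with x h1 h2 h3 h4
  rw [h4]
  change (Lp.compMeasurePreserving _ hm (T hP k f)) x = E (m * k) x *
    (Lp.compMeasurePreserving _ hm f) x + (E (m * k) x - 1)
  rw [h1, h2, Function.comp_apply, Function.comp_apply, h3, E_nsmul]

lemma no_fix (hP : Lev P) (f : Lp ℂ 2 P) : Tt hP f ≠ f := by
  intro h
  have h1 : T hP 1 f = f := h
  have h2 : ∀ᵐ x ∂P, x ≠ 0 := by
    rw [ae_iff]
    simpa using hP.zero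
  have h3 : ∀ᵐ x ∂P, f x = -1 := by
    filter_upwards [T_coe hP 1 f, h2] with x h3 h4
    rw [h1] at h3
    have h5 : (E 1 x - 1) * (f x + 1) = 0 := by linear_combination -h3
    rcases mul_eq_zero.1 h5 with h6 | h6
    · exfalso
      apply h4
      have h7 : (fourier 1 x : ℂ) = 1 := sub_eq_zero.1 h6
      rw [fourier_apply, one_zsmul] at h7
      have h8 : AddCircle.toCircle x = AddCircle.toCircle (0 : UnitAddCircle) := by
        rw [AddCircle.toCircle_zero]
        exact Circle.ext (by simpa using h7)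
      exact AddCircle.injective_toCircle (T := (1 : ℝ)) one_ne_zero h8
    · exact eq_neg_of_add_eq_zero_left h6
  have h4 : MemLp (fun _ : UnitAddCircle => (-1 : ℂ)) 2 P := (memLp_congr_ae h3).1 (Lp.memLp f)
  rw [memLp_const_iff (by norm_num) (by norm_num)] at h4
  rcases h4 with h4 | h4
  · norm_num at h4
  · rw [hP.inf] at h4
    exact lt_irrefl _ h4

/-- The action attached to a lack of a gap at zero. -/
theorem exists_action (hG : NoGap) : ∃ (H : Type) (_ : NormedAddCommGroup H)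
    (_ : InnerProductSpace ℝ H) (_ : CompleteSpace H) (a b : H →ₗᵢ[ℝ] H) (t : H ≃ᵢ H),
    (∀ x, a (b x) = b (a x)) ∧ (∀ x, a (t x) = t (t (a x))) ∧ (∀ x, b (t x) = t (t (t (b x)))) ∧
      ∀ x, t x ≠ x := by
  obtain ⟨P, hP⟩ := exists_lev hG
  refine ⟨Lp ℂ 2 P, inferInstance, inferInstance, inferInstance,
    Lp.compMeasurePreservingₗᵢ ℝ _ hP.mp2, Lp.compMeasurePreservingₗᵢ ℝ _ hP.mp3, Tt hP,
    ?_, ?_, ?_, no_fix hP⟩
  · intro f
    apply Lp.ext
    have h1 := Lp.coeFn_compMeasurePreserving (Lp.compMeasurePreserving _ hP.mp3 f) hP.mp2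
    have h2 := Lp.coeFn_compMeasurePreserving (Lp.compMeasurePreserving _ hP.mp2 f) hP.mp3
    have h3 := hP.mp2.quasiMeasurePreserving.ae (Lp.coeFn_compMeasurePreserving f hP.mp3)
    have h4 := hP.mp3.quasiMeasurePreserving.ae (Lp.coeFn_compMeasurePreserving f hP.mp2)
    filter_upwards [h1, h2, h3, h4] with x h1 h2 h3 h4
    change (Lp.compMeasurePreserving _ hP.mp2 (Lp.compMeasurePreserving _ hP.mp3 f)) x =
      (Lp.compMeasurePreserving _ hP.mp3 (Lp.compMeasurePreserving _ hP.mp2 f)) x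
    rw [h1, h2, Function.comp_apply, Function.comp_apply, h3, h4, Function.comp_apply,
      Function.comp_apply, smul_smul, smul_smul]
    norm_num
  · intro f
    have h := comp_T hP 2 hP.mp2 1 f
    change Lp.compMeasurePreservingₗᵢ ℝ _ hP.mp2 (T hP 1 f) = T hP 1 (T hP 1 _)
    rw [h, T_add]
    rfl
  · intro f
    have h := comp_T hP 3 hP.mp3 1 f
    change Lp.compMeasurePreservingₗᵢ ℝ _ hP.mp3 (T hP 1 f) = T hP 1 (T hP 1 (T hP 1 _))
    rw [h, T_add, T_add]
    rfl

end Pool.Agent.Helper95.FP
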