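import Pool.Agent.Helper95.FP.Herg

set_option autoImplicit false

open MeasureTheory Filter Topology
open scoped ENNReal NNReal Matrix

namespace Pool.Agent.Helper95.FP

open Pool.Agent.H635F

variable {H : Type*} [NormedAddCommGroup H] [InnerProductSpace ℝ H]

lemma psd_pow (u : ℤ → H) (N j : ℕ) :
    (Matrix.of fun m n : Fin N => (inner ℝ (u m) (u n)) ^ j : Matrix (Fin N) (Fin N) ℝ).PosSemidef := by
  induction j with
  | zero =>
    have h := Matrix.posSemidef_vecMulVec_self_star (fun _ : Fin N => (1 : ℝ))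
    convert h using 1
    ext m n
    simp [Matrix.vecMulVec_apply]
  | succ j ih =>
    have h := ih.hadamard (Matrix.posSemidef_gram ℝ (fun m : Fin N => u m))
    have e : (Matrix.of fun m n : Fin N => (inner ℝ (u m) (u n)) ^ (j + 1) :
        Matrix (Fin N) (Fin N) ℝ) = (Matrix.of fun m n : Fin N => (inner ℝ (u m) (u n)) ^ j) ⊙
        Matrix.gram ℝ (fun m : Fin N => u m) := by
      ext m n
      simp only [Matrix.of_apply, Matrix.hadamard_apply, Matrix.gram_apply]
      rw [pow_succ]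
    rw [e]
    exact h

lemma pow_nonneg' (u : ℤ → H) (N j : ℕ) (y : ℕ → ℝ) :
    0 ≤ ∑ m ∈ Finset.range N, ∑ n ∈ Finset.range N, (inner ℝ (u m) (u n)) ^ j * (y m * y n) := by
  have h := (psd_pow u N j).dotProduct_mulVec_nonneg (fun m : Fin N => y m)
  have e : (star fun m : Fin N => y m) ⬝ᵥ ((Matrix.of fun m n : Fin N => (inner ℝ (u m) (u n)) ^ j :
      Matrix (Fin N) (Fin N) ℝ) *ᵥ fun m : Fin N => y m) =
      ∑ m ∈ Finset.range N, ∑ n ∈ Finset.range N, (inner ℝ (u m) (u n)) ^ j * (y m * y n) := by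
    rw [Finset.sum_range]
    simp only [dotProduct, Matrix.mulVec, Matrix.of_apply, Pi.star_apply, star_trivial]
    refine Finset.sum_congr rfl fun m _ => ?_
    rw [Finset.mul_sum, Finset.sum_range]
    refine Finset.sum_congr rfl fun n _ => ?_
    ring
  rw [← e]
  exact h

lemma exp_nonneg' (u : ℤ → H) (N : ℕ) (s : ℝ) (hs : 0 ≤ s) (y : ℕ → ℝ) :
    0 ≤ ∑ m ∈ Finset.range N, ∑ n ∈ Finset.range N,
      Real.exp (s * inner ℝ (u m) (u n)) * (y m * y n) := by
  have h1 : ∀ m n : ℕ, HasSum (fun j : ℕ => (s * inner ℝ (u m) (u n)) ^ j / (j.factorial : ℝ) *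
      (y m * y n)) (Real.exp (s * inner ℝ (u m) (u n)) * (y m * y n)) := by
    intro m n
    have h := NormedSpace.expSeries_div_hasSum_exp (s * inner ℝ (u m) (u n))
    rw [← Real.exp_eq_exp_ℝ] at h
    exact h.mul_right _
  have h2 : HasSum (fun j : ℕ => ∑ m ∈ Finset.range N, ∑ n ∈ Finset.range N,
      (s * inner ℝ (u m) (u n)) ^ j / (j.factorial : ℝ) * (y m * y n))
      (∑ m ∈ Finset.range N, ∑ n ∈ Finset.range N,
      Real.exp (s * inner ℝ (u m) (u n)) * (y m * y n)) :=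
    hasSum_sum fun m _ => hasSum_sum fun n _ => h1 m n
  refine h2.nonneg fun j => ?_
  have e : ∑ m ∈ Finset.range N, ∑ n ∈ Finset.range N,
      (s * inner ℝ (u m) (u n)) ^ j / (j.factorial : ℝ) * (y m * y n) =
      s ^ j / (j.factorial : ℝ) * ∑ m ∈ Finset.range N, ∑ n ∈ Finset.range N,
        (inner ℝ (u m) (u n)) ^ j * (y m * y n) := by
    rw [Finset.mul_sum]
    refine Finset.sum_congr rfl fun m _ => ?_
    rw [Finset.mul_sum]
    refine Finset.sum_congr rfl fun n _ => ?_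
    rw [mul_pow]
    ring
  rw [e]
  exact mul_nonneg (by positivity) (pow_nonneg' u N j y)

/-- **Schoenberg.** -/
lemma schoen (u : ℤ → H) (f : ℤ → ℝ) (hf : ∀ m n, ‖u m - u n‖ = f (m - n)) (t : ℝ) (ht : 0 ≤ t)
    (N : ℕ) (y : ℕ → ℝ) :
    0 ≤ ∑ m ∈ Finset.range N, ∑ n ∈ Finset.range N,
      Real.exp (-(t * f ((m : ℤ) - n) ^ 2)) * (y m * y n) := by
  have h := exp_nonneg' u N (2 * t) (by positivity) (fun m => Real.exp (-(t * ‖u m‖ ^ 2)) * y m)
  convert h using 1
  refine Finset.sum_congr rfl fun m _ => Finset.sum_congr rfl fun n _ => ?_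
  rw [← hf, norm_sub_sq_real]
  have e : -(t * (‖u m‖ ^ 2 - 2 * inner ℝ (u m) (u n) + ‖u n‖ ^ 2)) =
      2 * t * inner ℝ (u m) (u n) + -(t * ‖u m‖ ^ 2) + -(t * ‖u n‖ ^ 2) := by ring
  rw [e, Real.exp_add, Real.exp_add]
  ring

/-- The measures attached to a translation invariant Hilbert metric on the integers. -/
theorem exists_meas (u : ℤ → H) (f : ℤ → ℝ) (hf : ∀ m n, ‖u m - u n‖ = f (m - n)) (t : ℝ)
    (ht : 0 ≤ t) : ∃ μ : PM, ∀ k : ℤ, F k μ = ((Real.exp (-(t * f k ^ 2)) : ℝ) : ℂ) := by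
  refine herglotz _ ?_ ?_ (schoen u f hf t ht)
  · have h := hf 0 0
    rw [sub_self, sub_self, norm_zero] at h
    rw [← h]
    simp
  · intro k
    have h1 := hf 0 k
    have h2 := hf k 0
    rw [zero_sub] at h1
    rw [sub_zero] at h2
    rw [← h1, ← h2, norm_sub_rev]

end Pool.Agent.Helper95.FP
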